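import Mathlib
set_option autoImplicit false
namespace Pool.Agent.H64

/-- expansion of a power of a sum in a noncommutative ring -/
theorem sum_pow_expand {Λ ι : Type*} [Ring Λ] [Fintype ι] (x : ι → Λ) (n : ℕ) :
    (∑ i, x i) ^ n = ∑ f : Fin n → ι, (List.ofFn fun i => x (f i)).prod := by
  induction n with
  | zero => simp
  | succ n ih =>
    rw [pow_succ', ih, Finset.sum_mul_sum, ← Finset.sum_product']
    refine Finset.sum_equiv (Fin.consEquiv fun _ => ι) (by simp) ?_
    rintro ⟨i, f⟩ _
    simp [Fin.consEquiv, List.ofFn_succ]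

theorem prod_range_periodic {Λ : Type*} [Monoid Λ] (g : ℕ → Λ) (d : ℕ) (hg : ∀ i, g (i + d) = g i)
    (m : ℕ) : ((List.range (d * m)).map g).prod = ((List.range d).map g).prod ^ m := by
  induction m with
  | zero => simp
  | succ m ih =>
    rw [Nat.mul_succ, add_comm, List.range_add, List.map_append, List.prod_append, List.map_map,
      pow_succ', ← ih]
    congr 2
    refine List.map_congr_left fun i _ => ?_
    show g (d + i) = g i
    rw [add_comm, hg]

/-- the sum of an invariant function over a finite set with a permutation of prime power order -/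
theorem sum_orbits {α A : Type*} [Fintype α] [AddCommGroup A] (r : Equiv.Perm α) (F : α → A)
    (hF : ∀ f, F (r f) = F f) (B : AddSubgroup A)
    (hB : ∀ f, Function.minimalPeriod r f • F f ∈ B) : ∑ f, F f ∈ B := by
  classical
  let π : α → Quotient (Equiv.Perm.SameCycle.setoid r) := fun f => Quotient.mk _ f
  rw [← Finset.sum_fiberwise Finset.univ π]
  apply AddSubgroup.sum_mem
  intro ω _
  induction ω using Quotient.inductionOn with
  | h f0 =>
  obtain ⟨d, hd⟩ : ∃ d, d = Function.minimalPeriod r f0 := ⟨_, rfl⟩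
  have hd0 : 0 < d := by
    rw [hd]
    apply Function.minimalPeriod_pos_of_mem_periodicPts
    exact Function.Injective.mem_periodicPts r.injective f0
  have hiter : ∀ (i : ℕ) (f : α), (r ^ i) f = r^[i] f := by
    intro i f
    rw [Equiv.Perm.iterate_eq_pow]
  have hFi : ∀ i : ℕ, F (r^[i] f0) = F f0 := by
    intro i
    induction i with
    | zero => rfl
    | succ i ih => rw [Function.iterate_succ_apply', hF, ih]
  have hfib : (Finset.univ.filter (fun f => π f = Quotient.mk _ f0)) =
      (Finset.range d).image (fun i : ℕ => r^[i] f0) := by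
    ext f
    rw [Finset.mem_filter, Finset.mem_image]
    have e1 : π f = Quotient.mk _ f0 ↔ r.SameCycle f f0 := Quotient.eq
    rw [e1]
    constructor
    · rintro ⟨-, h⟩
      obtain ⟨i, hi⟩ := (h.symm).exists_nat_pow_eq
      refine ⟨i % d, Finset.mem_range.2 (Nat.mod_lt _ hd0), ?_⟩
      rw [hd, Function.iterate_mod_minimalPeriod_eq, ← hiter, hi]
    · rintro ⟨i, -, rfl⟩
      refine ⟨Finset.mem_univ _, ?_⟩
      rw [← hiter]
      exact (Equiv.Perm.sameCycle_pow_left).2 (Equiv.Perm.SameCycle.refl r f0)
  have hinj : Set.InjOn (fun i : ℕ => r^[i] f0) (Finset.range d : Set ℕ) := by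
    have := Function.iterate_injOn_Iio_minimalPeriod (f := r) (x := f0)
    rw [← hd] at this
    intro i hi j hj h
    exact this (by simpa using hi) (by simpa using hj) h
  rw [hfib, Finset.sum_image hinj, Finset.sum_congr rfl fun i _ => hFi i, Finset.sum_const,
    Finset.card_range, hd]
  exact hB f0

/-- the necklace congruence: the trace of a `c ^ k`-th power of a sum is controlled by the traces of
powers of words -/
theorem necklace {Λ A ι : Type*} [Ring Λ] [AddCommGroup A] [Fintype ι] (τ : Λ →+ A)
    (hτ : ∀ x y, τ (x * y) = τ (y * x)) (c s k : ℕ) (hc : c.Prime) (x : ι → Λ)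
    (h : ∀ (l : List ι) (i : ℕ), i ≤ k → ∃ a, τ ((l.map x).prod ^ c ^ i) = (c ^ (i + 1 - s)) • a) :
    ∃ a, τ ((∑ i, x i) ^ c ^ k) = (c ^ (k + 1 - s)) • a := by
  classical
  obtain ⟨n, hn⟩ : ∃ n, n = c ^ k := ⟨_, rfl⟩
  have hn0 : 0 < n := by rw [hn]; exact pow_pos hc.pos k
  have : NeZero n := ⟨hn0.ne'⟩
  -- words indexed by `ZMod n`
  let F : (ZMod n → ι) → A := fun f => τ (((List.range n).map fun i : ℕ => x (f (i : ZMod n))).prod)
  let B : AddSubgroup A := (AddMonoidHom.range (nsmulAddMonoidHom (α := A) (c ^ (k + 1 - s))))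
  have hBmem : ∀ a, a ∈ B ↔ ∃ b, (c ^ (k + 1 - s)) • b = a := fun a => AddMonoidHom.mem_range
  let sh : ZMod n ≃ ZMod n := Equiv.addRight 1
  let r : Equiv.Perm (ZMod n → ι) := Equiv.arrowCongr sh.symm (Equiv.refl ι)
  have hr : ∀ f i, r f i = f (i + 1) := by
    intro f i
    rfl
  have hrk : ∀ (d : ℕ) f i, (r^[d] f) i = f (i + d) := by
    intro d
    induction d with
    | zero => intro f i; simp
    | succ d ih =>
      intro f i
      rw [Function.iterate_succ_apply', hr, ih]
      congr 1
      push_cast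
      ring
  have hFr : ∀ f, F (r f) = F f := by
    intro f
    show τ _ = τ _
    have h1 : ((List.range n).map fun i : ℕ => x (r f (i : ZMod n))) =
        ((List.range n).map fun i : ℕ => x (f ((i + 1 : ℕ) : ZMod n))) := by
      refine List.map_congr_left fun i _ => ?_
      rw [hr]
      push_cast
      rfl
    rw [h1]
    obtain ⟨n', hn'⟩ : ∃ n', n = n' + 1 := ⟨n - 1, by omega⟩
    have h2 : ((List.range n).map fun i : ℕ => x (f ((i + 1 : ℕ) : ZMod n))).prod =
        ((List.range n').map fun i : ℕ => x (f ((i + 1 : ℕ) : ZMod n))).prod * x (f 0) := by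
      conv_lhs => rw [show List.range n = List.range (n' + 1) by rw [← hn']]
      rw [List.range_succ, List.map_append, List.prod_append]
      congr 1
      rw [List.map_singleton, List.prod_singleton, ← hn', ZMod.natCast_self]
    have h3 : ((List.range n).map fun i : ℕ => x (f (i : ZMod n))).prod =
        x (f 0) * ((List.range n').map fun i : ℕ => x (f ((i + 1 : ℕ) : ZMod n))).prod := by
      conv_lhs => rw [show List.range n = List.range (n' + 1) by rw [← hn']]
      rw [List.range_succ_eq_map, List.map_cons, List.prod_cons, List.map_map, Nat.cast_zero]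
      rfl
    rw [h2, h3, hτ]
  have hmain : ∑ f, F f ∈ B := by
    apply sum_orbits r F hFr B
    intro f
    obtain ⟨d, hd⟩ : ∃ d, d = Function.minimalPeriod r f := ⟨_, rfl⟩
    have hper : r^[n] f = f := by
      funext i
      rw [hrk, ZMod.natCast_self, add_zero]
    have hdn : d ∣ n := by
      rw [hd]
      exact Function.IsPeriodicPt.minimalPeriod_dvd hper
    have hdper : r^[d] f = f := by
      rw [hd]
      exact Function.iterate_minimalPeriod
    obtain ⟨j, hj, hdj⟩ := (Nat.dvd_prime_pow hc).1 (hn ▸ hdn)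
    rw [← hd]
    obtain ⟨g, hg⟩ : ∃ g : ℕ → Λ, ∀ i, g i = x (f (i : ZMod n)) := ⟨_, fun _ => rfl⟩
    have hgp : ∀ i, g (i + d) = g i := by
      intro i
      rw [hg, hg]
      have := congrFun hdper (i : ZMod n)
      rw [hrk] at this
      rw [Nat.cast_add, this]
    have h1 : F f = τ (((List.range d).map g).prod ^ c ^ (k - j)) := by
      show τ _ = τ _
      congr 1
      rw [← prod_range_periodic g d hgp]
      have h2 : d * c ^ (k - j) = n := by
        rw [hdj, ← pow_add, hn]
        congr 1
        omega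
      rw [h2]
      congr 1
      exact List.map_congr_left fun i _ => (hg i).symm
    have h2 : ((List.range d).map g) = (((List.range d).map fun i : ℕ => f (i : ZMod n)).map x) := by
      rw [List.map_map]
      exact List.map_congr_left fun i _ => hg i
    rw [h2] at h1
    obtain ⟨a, ha⟩ := h ((List.range d).map fun i : ℕ => f (i : ZMod n)) (k - j) (Nat.sub_le _ _)
    rw [h1, ha, hBmem]
    obtain ⟨t, ht⟩ : ∃ t, j + (k - j + 1 - s) = (k + 1 - s) + t :=
      ⟨j + (k - j + 1 - s) - (k + 1 - s), by omega⟩
    refine ⟨c ^ t • a, ?_⟩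
    rw [hdj, ← mul_smul, ← mul_smul, ← pow_add, ← pow_add, ht]
  -- comparison with the expansion
  have hexp : τ ((∑ i, x i) ^ c ^ k) = ∑ f, F f := by
    rw [← hn, sum_pow_expand, map_sum]
    let e : Fin n ≃ ZMod n := Equiv.ofBijective (fun i : Fin n => ((i : ℕ) : ZMod n)) ⟨by
        intro i j h
        have := (ZMod.natCast_eq_natCast_iff' (i : ℕ) (j : ℕ) n).1 h
        rw [Nat.mod_eq_of_lt i.2, Nat.mod_eq_of_lt j.2] at this
        exact Fin.ext this, fun z => ⟨⟨z.val, ZMod.val_lt z⟩, ZMod.natCast_zmod_val z⟩⟩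
    have he : ∀ i : Fin n, e i = ((i : ℕ) : ZMod n) := fun i => rfl
    refine Finset.sum_equiv (Equiv.arrowCongr e (Equiv.refl ι)) (by simp) ?_
    intro f _
    show τ _ = τ _
    congr 2
    apply List.ext_getElem
    · simp
    · intro i h1 h2
      simp only [List.getElem_ofFn, List.getElem_map, List.getElem_range, Equiv.arrowCongr_apply,
        Function.comp, Equiv.coe_refl, id]
      congr 2
      rw [Equiv.eq_symm_apply, he]
  rw [hexp]
  obtain ⟨b, hb⟩ := (hBmem _).1 hmain
  exact ⟨b, hb.symm⟩

end Pool.Agent.H64
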