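import Mathlib
import Pool.Agent.H64.N1
set_option autoImplicit false
set_option linter.unusedSectionVars false
namespace Pool.Agent.H64
open Matrix

variable {d : ℕ}

/-- traces of `c ^ k`-th powers of congruent integer matrices -/
theorem trace_pow_congr (c k : ℕ) (hc : c.Prime) (A B C : Matrix (Fin d) (Fin d) ℤ)
    (h : A = B + (c : ℤ) • C) :
    ((c : ℤ) ^ (k + 1)) ∣ (A ^ c ^ k).trace - (B ^ c ^ k).trace := by
  let τ : (Matrix (Fin d) (Fin d) ℤ × Matrix (Fin d) (Fin d) ℤ) →+ ℤ :=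
    (Matrix.traceAddMonoidHom (Fin d) ℤ).comp (AddMonoidHom.fst _ _) -
      (Matrix.traceAddMonoidHom (Fin d) ℤ).comp (AddMonoidHom.snd _ _)
  have hτ : ∀ X, τ X = X.1.trace - X.2.trace := fun X => rfl
  let x : Bool → (Matrix (Fin d) (Fin d) ℤ × Matrix (Fin d) (Fin d) ℤ) := fun b =>
    if b then ((c : ℤ) • C, 0) else (B, B)
  have hx1 : x true = ((c : ℤ) • C, 0) := rfl
  have hx0 : x false = (B, B) := rfl
  have hword : ∀ l : List Bool, (∃ Z, (l.map x).prod = (Z, Z)) ∨
      (∃ D, (l.map x).prod = ((c : ℤ) • D, 0)) := by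
    intro l
    induction l with
    | nil => left; exact ⟨1, rfl⟩
    | cons b l ih =>
      rw [List.map_cons, List.prod_cons]
      cases b with
      | true =>
        right
        refine ⟨C * ((l.map x).prod).1, ?_⟩
        rw [hx1]
        show ((c : ℤ) • C * ((l.map x).prod).1, 0 * ((l.map x).prod).2) = _
        rw [zero_mul, Matrix.smul_mul]
      | false =>
        rcases ih with ⟨Z, hZ⟩ | ⟨D, hD⟩
        · left
          refine ⟨B * Z, ?_⟩
          rw [hx0, hZ]; rfl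
        · right
          refine ⟨B * D, ?_⟩
          rw [hx0, hD, Prod.mk_mul_mk, mul_zero, Matrix.mul_smul]
  obtain ⟨a, ha⟩ := necklace τ (fun X Y => by
      rw [hτ, hτ, Prod.fst_mul, Prod.fst_mul, Prod.snd_mul, Prod.snd_mul, Matrix.trace_mul_comm X.1,
        Matrix.trace_mul_comm X.2]) c 0 k hc x (by
      intro l i _
      have hci : 0 < c ^ i := pow_pos hc.pos i
      rcases hword l with ⟨Z, hZ⟩ | ⟨D, hD⟩
      · refine ⟨0, ?_⟩
        rw [hZ, hτ, smul_zero]
        simp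
      · have h1 : i + 1 ≤ c ^ i := Nat.lt_pow_self hc.one_lt
        refine ⟨(c : ℤ) ^ (c ^ i - (i + 1)) * (D ^ c ^ i).trace, ?_⟩
        rw [hD, hτ, Prod.pow_fst, Prod.pow_snd, zero_pow hci.ne', Matrix.trace_zero, sub_zero,
          smul_pow, Matrix.trace_smul, smul_eq_mul, nsmul_eq_mul, ← mul_assoc, Nat.sub_zero]
        congr 1
        push_cast
        rw [← pow_add]
        congr 1
        omega)
  have hsum : ∑ b, x b = (A, B) := by
    rw [Fintype.sum_bool, hx1, hx0, h, Prod.mk_add_mk, zero_add, add_comm]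
  rw [hsum, hτ, Prod.pow_fst, Prod.pow_snd, Nat.sub_zero, nsmul_eq_mul] at ha
  refine ⟨a, ?_⟩
  rw [ha]
  push_cast
  rfl

/-- congruence of integer matrices modulo `c` -/
def MC (c : ℕ) (A B : Matrix (Fin d) (Fin d) ℤ) : Prop := ∃ C, A = B + (c : ℤ) • C

theorem MC.refl (c : ℕ) (A : Matrix (Fin d) (Fin d) ℤ) : MC c A A := ⟨0, by simp⟩

theorem MC.symm {c : ℕ} {A B : Matrix (Fin d) (Fin d) ℤ} (h : MC c A B) : MC c B A := by
  obtain ⟨C, hC⟩ := h
  refine ⟨-C, ?_⟩
  rw [hC, smul_neg]; abel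

theorem MC.trans {c : ℕ} {A B D : Matrix (Fin d) (Fin d) ℤ} (h : MC c A B) (h' : MC c B D) :
    MC c A D := by
  obtain ⟨C, hC⟩ := h
  obtain ⟨C', hC'⟩ := h'
  refine ⟨C' + C, ?_⟩
  rw [hC, hC', smul_add]; abel

theorem MC.mul {c : ℕ} {A B A' B' : Matrix (Fin d) (Fin d) ℤ} (h : MC c A B) (h' : MC c A' B') :
    MC c (A * A') (B * B') := by
  obtain ⟨C, hC⟩ := h
  obtain ⟨C', hC'⟩ := h'
  refine ⟨B * C' + C * A', ?_⟩
  rw [hC, hC']
  simp only [add_mul, mul_add, smul_add, Matrix.mul_smul, Matrix.smul_mul]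
  abel

theorem MC.pow {c : ℕ} {A B : Matrix (Fin d) (Fin d) ℤ} (h : MC c A B) (n : ℕ) :
    MC c (A ^ n) (B ^ n) := by
  induction n with
  | zero => rw [pow_zero, pow_zero]; exact MC.refl c 1
  | succ n ih => rw [pow_succ, pow_succ]; exact ih.mul h

theorem MC.trace {c : ℕ} (hc : c.Prime) (k : ℕ) {A B : Matrix (Fin d) (Fin d) ℤ} (h : MC c A B) :
    ((c : ℤ) ^ (k + 1)) ∣ (A ^ c ^ k).trace - (B ^ c ^ k).trace := by
  obtain ⟨C, hC⟩ := h
  exact trace_pow_congr c k hc A B C hC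

section main
variable {G : Type*} [Group G] [Fintype G]

/-- the functional `∑ a_g ψ(g)` -/
noncomputable def LF {A : Type*} [CommRing A] (ψ : G → A) : MonoidAlgebra ℤ G →+ A where
  toFun a := ∑ g, (a.coeff g : A) * ψ g
  map_zero' := by simp
  map_add' a b := by
    rw [← Finset.sum_add_distrib]
    refine Finset.sum_congr rfl fun g _ => ?_
    rw [MonoidAlgebra.coeff_add, Finsupp.add_apply, Int.cast_add, add_mul]

theorem LF_apply {A : Type*} [CommRing A] (ψ : G → A) (a : MonoidAlgebra ℤ G) :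
    LF ψ a = ∑ g, (a.coeff g : A) * ψ g := rfl

theorem LF_single {A : Type*} [CommRing A] (ψ : G → A) (g : G) (c : ℤ) :
    LF ψ (MonoidAlgebra.single g c) = (c : A) * ψ g := by
  classical
  rw [LF_apply, Finset.sum_eq_single g]
  · rw [MonoidAlgebra.coeff_single, Finsupp.single_eq_same]
  · intro h _ hne
    rw [MonoidAlgebra.coeff_single, Finsupp.single_eq_of_ne hne, Int.cast_zero, zero_mul]
  · intro h
    exact absurd (Finset.mem_univ _) h

theorem LF_comm {A : Type*} [CommRing A] (ψ : G → A) (hψ : ∀ a b : G, ψ (a * b) = ψ (b * a))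
    (x y : MonoidAlgebra ℤ G) : LF ψ (x * y) = LF ψ (y * x) := by
  induction x using MonoidAlgebra.induction_linear with
  | zero => simp
  | add a b ha hb => rw [add_mul, mul_add, map_add, map_add, ha, hb]
  | single g r' =>
    induction y using MonoidAlgebra.induction_linear with
    | zero => simp
    | add a b ha hb => rw [add_mul, mul_add, map_add, map_add, ha, hb]
    | single h s =>
      rw [MonoidAlgebra.single_mul_single, MonoidAlgebra.single_mul_single, LF_single, LF_single,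
        hψ, mul_comm r' s]

theorem MC_pow_R (c : ℕ) (R : G → Matrix (Fin d) (Fin d) ℤ) (hR1 : MC c (R 1) 1)
    (hR : ∀ g h, MC c (R (g * h)) (R g * R h)) (g : G) (n : ℕ) : MC c (R (g ^ n)) (R g ^ n) := by
  induction n with
  | zero => rw [pow_zero, pow_zero]; exact hR1
  | succ n ih =>
    rw [pow_succ, pow_succ]
    exact (hR _ _).trans (ih.mul (MC.refl c _))

theorem main_formula (c s M : ℕ) (hc : c.Prime) (R : G → Matrix (Fin d) (Fin d) ℤ)
    (hR1 : MC c (R 1) 1) (hR : ∀ g h, MC c (R (g * h)) (R g * R h))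
    (hH : ∀ h : G, h ^ c ^ (s + M) = h ^ c ^ s) (w : MonoidAlgebra ℤ G) :
    ((c : ℤ) ^ (M + 1 - s)) ∣ ((∑ g, w.coeff g • R g) ^ c ^ M).trace -
      ∑ g, (w ^ c ^ M).coeff g * (R g ^ c ^ M).trace := by
  classical
  have hcM : c ^ (M + 1) ≠ 0 := (pow_pos hc.pos _).ne'
  have : NeZero (c ^ (M + 1)) := ⟨hcM⟩
  obtain ⟨ψ, hψ⟩ : ∃ ψ : G → ZMod (c ^ (M + 1)), ∀ g, ψ g = (((R g ^ c ^ M).trace : ℤ) :
    ZMod (c ^ (M + 1))) := ⟨_, fun _ => rfl⟩
  have hcast : ∀ a b : ℤ, ((c : ℤ) ^ (M + 1)) ∣ a - b → ((a : ℤ) : ZMod (c ^ (M + 1))) = b := by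
    intro a b h
    rw [← sub_eq_zero, ← Int.cast_sub, ZMod.intCast_zmod_eq_zero_iff_dvd]
    push_cast
    exact h
  have hψc : ∀ a b : G, ψ (a * b) = ψ (b * a) := by
    intro a b
    rw [hψ, hψ]
    have h1 := hcast _ _ ((hR a b).trace hc M)
    have h2 := hcast _ _ ((hR b a).trace hc M)
    rw [h1, h2]
    congr 1
    have h3 : ∀ n : ℕ, 0 < n → ((R a * R b) ^ n).trace = ((R b * R a) ^ n).trace := by
      intro n hn
      obtain ⟨n', rfl⟩ : ∃ n', n = n' + 1 := ⟨n - 1, by omega⟩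
      have h4 : (R a * R b) ^ (n' + 1) = R a * (R b * R a) ^ n' * R b := by
        clear hn h1 h2
        induction n' with
        | zero => simp
        | succ n' ih =>
          rw [pow_succ, ih, pow_succ (R b * R a)]
          simp only [mul_assoc]
      rw [h4, Matrix.trace_mul_comm, ← mul_assoc, pow_succ']
    exact h3 _ (pow_pos hc.pos _)
  let τ : (MonoidAlgebra ℤ G × Matrix (Fin d) (Fin d) ℤ) →+ ZMod (c ^ (M + 1)) :=
    ((Int.castAddHom _).comp (Matrix.traceAddMonoidHom (Fin d) ℤ)).comp (AddMonoidHom.snd _ _) -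
      (LF ψ).comp (AddMonoidHom.fst _ _)
  have hτ : ∀ X, τ X = ((X.2.trace : ℤ) : ZMod (c ^ (M + 1))) - LF ψ X.1 := fun X => rfl
  let x : G → (MonoidAlgebra ℤ G × Matrix (Fin d) (Fin d) ℤ) := fun g =>
    (MonoidAlgebra.single g (w.coeff g), w.coeff g • R g)
  have hword : ∀ l : List G, (l.map x).prod =
      (MonoidAlgebra.single l.prod (l.map w.coeff).prod, (l.map w.coeff).prod • (l.map R).prod) := by
    intro l
    induction l with
    | nil => simp [MonoidAlgebra.one_def]; rfl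
    | cons g l ih =>
      rw [List.map_cons, List.prod_cons, ih]
      show (MonoidAlgebra.single g (w.coeff g) * _, (w.coeff g • R g) * _) = _
      rw [MonoidAlgebra.single_mul_single]
      simp only [List.prod_cons, List.map_cons, smul_mul_assoc, mul_smul_comm, smul_smul]
      rw [mul_comm ((l.map w.coeff).prod) (w.coeff g)]
  have hPR : ∀ l : List G, MC c ((l.map R).prod) (R l.prod) := by
    intro l
    induction l with
    | nil => simpa using hR1.symm
    | cons g l ih =>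
      rw [List.map_cons, List.prod_cons, List.prod_cons]
      exact ((MC.refl c _).mul ih).trans (hR _ _).symm
  have hstar : ∀ (h : G) (i : ℕ), i ≤ M → s ≤ i →
      ((c : ℤ) ^ (i + 1 - s)) ∣ (R h ^ c ^ i).trace - (R (h ^ c ^ i) ^ c ^ M).trace := by
    intro h i hiM hsi
    have hpow := MC_pow_R c R hR1 hR h
    have h1 : MC c (R h ^ c ^ (s + M)) (R h ^ c ^ s) := by
      have h2 := hpow (c ^ (s + M))
      rw [hH h] at h2
      exact h2.symm.trans (hpow (c ^ s))
    have h2 := h1.trace hc (i - s)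
    rw [← pow_mul, ← pow_mul, ← pow_add, ← pow_add] at h2
    have h3 := (hpow (c ^ i)).trace hc M
    rw [← pow_mul, ← pow_add] at h3
    have e1 : s + M + (i - s) = i + M := by omega
    have e2 : s + (i - s) = i := by omega
    have e3 : i - s + 1 = i + 1 - s := by omega
    rw [e1, e2, e3] at h2
    have h4 : ((c : ℤ) ^ (i + 1 - s)) ∣ (R (h ^ c ^ i) ^ c ^ M).trace - (R h ^ c ^ (i + M)).trace :=
      (pow_dvd_pow _ (by omega)).trans h3
    have h5 := dvd_add h2 h4
    rw [← dvd_neg]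
    convert h5 using 1
    ring
  obtain ⟨a, ha⟩ := necklace τ (fun X Y => by
      rw [hτ, hτ, Prod.fst_mul, Prod.fst_mul, Prod.snd_mul, Prod.snd_mul, Matrix.trace_mul_comm X.2,
        LF_comm ψ hψc]) c s M hc x (by
      intro l i hiM
      by_cases hsi : s ≤ i
      · have h1 := (hPR l).trace hc i
        have h2 := hstar l.prod i hiM hsi
        have h3 : ((c : ℤ) ^ (i + 1 - s)) ∣ (((l.map R).prod) ^ c ^ i).trace -
            (R (l.prod ^ c ^ i) ^ c ^ M).trace := by
          have h4 := dvd_add ((pow_dvd_pow (c : ℤ) (show i + 1 - s ≤ i + 1 by omega)).trans h1) h2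
          rwa [sub_add_sub_cancel] at h4
        obtain ⟨t, ht⟩ := h3
        refine ⟨(((l.map w.coeff).prod ^ c ^ i * t : ℤ) : ZMod (c ^ (M + 1))), ?_⟩
        rw [hword, hτ, Prod.pow_fst, Prod.pow_snd, MonoidAlgebra.single_pow, LF_single, smul_pow,
          Matrix.trace_smul, smul_eq_mul, hψ, nsmul_eq_mul]
        have h5 : (((l.map R).prod) ^ c ^ i).trace = (R (l.prod ^ c ^ i) ^ c ^ M).trace +
            (c : ℤ) ^ (i + 1 - s) * t := by rw [← ht]; ring
        rw [h5]
        push_cast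
        ring
      · refine ⟨τ ((l.map x).prod ^ c ^ i), ?_⟩
        have : i + 1 - s = 0 := by omega
        rw [this, pow_zero, one_smul])
  have hsum : ∑ g, x g = (w, ∑ g, w.coeff g • R g) := by
    rw [Prod.ext_iff, Prod.fst_sum, Prod.snd_sum]
    refine ⟨?_, rfl⟩
    show ∑ g, MonoidAlgebra.single g (w.coeff g) = w
    ext k
    rw [MonoidAlgebra.coeff_sum, Finsupp.finsetSum_apply, Finset.sum_eq_single k]
    · simp
    · intro b _ hb
      simp [hb]
    · intro h; exact absurd (Finset.mem_univ _) h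
  rw [hsum, hτ, Prod.pow_fst, Prod.pow_snd, LF_apply] at ha
  simp only [hψ] at ha
  have hfin : ((((∑ g, w.coeff g • R g) ^ c ^ M).trace -
      ∑ g, (w ^ c ^ M).coeff g * (R g ^ c ^ M).trace - (c : ℤ) ^ (M + 1 - s) * (a.val : ℤ) : ℤ) :
      ZMod (c ^ (M + 1))) = 0 := by
    push_cast
    rw [ZMod.natCast_val, ZMod.cast_id', id, ha, nsmul_eq_mul]
    push_cast
    ring
  rw [ZMod.intCast_zmod_eq_zero_iff_dvd] at hfin
  have h1 : ((c : ℤ) ^ (M + 1 - s)) ∣ ((c ^ (M + 1) : ℕ) : ℤ) := by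
    push_cast
    exact pow_dvd_pow _ (Nat.sub_le _ _)
  have h2 := dvd_add (h1.trans hfin) (Dvd.intro (a.val : ℤ) rfl : ((c : ℤ) ^ (M + 1 - s)) ∣
    (c : ℤ) ^ (M + 1 - s) * (a.val : ℤ))
  rwa [sub_add_cancel] at h2

end main

end Pool.Agent.H64
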