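import Mathlib
import Pool.Graph.R_pool_sql_team_seeded_620a6dc7.Helper495_PQ.GA
set_option autoImplicit false
namespace Pool.Agent.H64
open Pool.Agent.Helper495_PQ

/-- the cosets which are moved by `y` contribute a relative trace -/
theorem moved_sum {G : Type} [Group G] [Finite G] {E : Type} [Ring E] (ρ : G →* Eˣ) (v1 : Eˣ)
    (hv' : ∀ g, Commute (ρ g) v1) (p : ℕ) [Fact p.Prime]
    (P : Subgroup G) [Fintype (G ⧸ P)] (F : G ⧸ P → E)
    (hFact : ∀ (h : G) (q : G ⧸ P), F (h • q) = h585c ρ h (F q))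
    (hFv1 : ∀ q, Commute (v1 : E) (F q)) (y : G) (hy : orderOf y = p) [DecidableEq (G ⧸ P)] :
    (∑ q, if y • q = q then 0 else F q) ∈ h585T p (ρ y * v1) := by
  classical
  set d : Eˣ := ρ y * v1 with hd
  let π : G ⧸ P → MulAction.orbitRel.Quotient (Subgroup.zpowers y) (G ⧸ P) := fun q => Quotient.mk _ q
  have : Fintype (MulAction.orbitRel.Quotient (Subgroup.zpowers y) (G ⧸ P)) := Fintype.ofFinite _
  rw [← Finset.sum_fiberwise Finset.univ π]
  apply AddSubgroup.sum_mem
  intro ω _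
  induction ω using Quotient.inductionOn with
  | h q0 =>
  have hmem : ∀ q, π q = Quotient.mk _ q0 ↔ ∃ i < p, y ^ i • q0 = q := by
    intro q
    have e1 : π q = Quotient.mk _ q0 ↔ q ∈ MulAction.orbit (Subgroup.zpowers y) q0 := Quotient.eq
    rw [e1, MulAction.mem_orbit_iff]
    constructor
    · rintro ⟨⟨g, hg⟩, hgq⟩
      have hfin : IsOfFinOrder y := by
        rw [← orderOf_pos_iff, hy]; exact (Fact.out : p.Prime).pos
      rw [← hfin.mem_powers_iff_mem_zpowers, hfin.mem_powers_iff_mem_range_orderOf] at hg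
      obtain ⟨i, hi, rfl⟩ := Finset.mem_image.1 hg
      rw [Finset.mem_range, hy] at hi
      exact ⟨i, hi, hgq⟩
    · rintro ⟨i, hi, hq⟩
      exact ⟨⟨y ^ i, Subgroup.pow_mem _ (Subgroup.mem_zpowers y) i⟩, hq⟩
  by_cases hfix : y • q0 = q0
  · have hfib : (Finset.univ.filter (fun q => π q = Quotient.mk _ q0)) = {q0} := by
      ext q
      rw [Finset.mem_filter, hmem, Finset.mem_singleton]
      constructor
      · rintro ⟨-, i, -, rfl⟩
        have : ∀ i : ℕ, y ^ i • q0 = q0 := by
          intro i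
          induction i with
          | zero => simp
          | succ i ih => rw [pow_succ, mul_smul, hfix, ih]
        exact this i
      · rintro rfl
        exact ⟨Finset.mem_univ _, 0, (Fact.out : p.Prime).pos, by simp⟩
    rw [hfib, Finset.sum_singleton, if_pos hfix]
    exact AddSubgroup.zero_mem _
  · have hinj : Set.InjOn (fun i : ℕ => y ^ i • q0) (Finset.range p : Set ℕ) := by
      have key : ∀ i j : ℕ, i < j → j < p → y ^ i • q0 ≠ y ^ j • q0 := by
        intro i j hij hj h
        have e1 : y ^ j = y ^ i * y ^ (j - i) := by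
          rw [← pow_add]; congr 1; omega
        rw [e1, mul_smul] at h
        have e2 : q0 = y ^ (j - i) • q0 := MulAction.injective (y ^ i) h
        have hcop : (j - i).Coprime (orderOf y) := by
          rw [hy]
          exact ((Nat.Prime.coprime_iff_not_dvd (Fact.out : p.Prime)).2
            (Nat.not_dvd_of_pos_of_lt (by omega) (by omega))).symm
        obtain ⟨m, hm⟩ := exists_pow_eq_self_of_coprime hcop
        apply hfix
        have e3 : y ^ (j - i) ∈ MulAction.stabilizer G q0 := e2.symm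
        have e4 := Subgroup.pow_mem _ e3 m
        rw [hm] at e4
        exact e4
      intro i hi j hj h
      simp only [Finset.coe_range, Set.mem_Iio] at hi hj
      rcases lt_trichotomy i j with hij | hij | hij
      · exact absurd h (key i j hij hj)
      · exact hij
      · exact absurd h.symm (key j i hij hi)
    have hfib : (Finset.univ.filter (fun q => π q = Quotient.mk _ q0)) =
        (Finset.range p).image (fun i : ℕ => y ^ i • q0) := by
      ext q
      rw [Finset.mem_filter, hmem, Finset.mem_image]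
      simp
    rw [hfib, Finset.sum_image hinj, h585_mem]
    refine ⟨F q0, ?_⟩
    unfold TrE
    apply Finset.sum_congr rfl
    intro i _
    have hnf : ¬ y • y ^ i • q0 = y ^ i • q0 := by
      intro h
      apply hfix
      rw [← mul_smul, ← pow_succ', pow_succ, mul_smul] at h
      exact MulAction.injective (y ^ i) h
    rw [if_neg hnf, hFact]
    have hc : Commute (ρ y) v1 := hv' y
    have e1 : d ^ i = ρ (y ^ i) * v1 ^ i := by
      rw [hd, hc.mul_pow, map_pow]
    rw [e1]
    unfold h585c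
    have e2 : Commute ((v1 ^ i : Eˣ) : E) (F q0) := by
      push_cast
      exact (hFv1 q0).pow_left i
    have e3 : (((ρ (y ^ i) * v1 ^ i : Eˣ)⁻¹ : Eˣ) : E) = (((v1 ^ i)⁻¹ : Eˣ) : E) * (((ρ (y ^ i))⁻¹ : Eˣ) : E) := by
      rw [mul_inv_rev]; push_cast; rfl
    rw [e3, Units.val_mul]
    have e4 : (ρ (y ^ i) : E) * ((v1 ^ i : Eˣ) : E) * (F q0) *
        ((((v1 ^ i)⁻¹ : Eˣ) : E) * (((ρ (y ^ i))⁻¹ : Eˣ) : E)) =
        (ρ (y ^ i) : E) * (((v1 ^ i : Eˣ) : E) * (F q0) * (((v1 ^ i)⁻¹ : Eˣ) : E)) *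
          (((ρ (y ^ i))⁻¹ : Eˣ) : E) := by
      simp only [mul_assoc]
    rw [e4, e2.eq, mul_assoc (F q0), Units.mul_inv, mul_one]

/-- an idempotent adapted to one conjugacy class of elements of order dividing `p` -/
theorem class_idem {G : Type} [Group G] [Fintype G] {E : Type} [Ring E] [Finite E]
    (ρ : G →* Eˣ) (v : Eˣ) (hv : ∀ g, Commute (ρ g) v) (p K : ℕ) [Fact p.Prime]
    (hK : (p : E) ^ K = 0) (hc : v ^ p = 1) (β : E)
    (hβ : ∑ g : G, (ρ g : E) * β * (((ρ g)⁻¹ : Eˣ) : E) = 1) (y0 : G) (hy0 : y0 ^ p = 1) :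
    ∃ ε : E, ε * ε = ε ∧ (∀ g, Commute (ρ g : E) ε) ∧ Commute (v : E) ε ∧
      (∀ y : G, IsConj y0 y → ∃ η, 1 - ε = TrE p (ρ y * v) η) ∧
      ∀ y : G, y ^ p = 1 → ¬ IsConj y0 y → ∃ η, ε = TrE p (ρ y * v) η := by
  classical
  have hp : p.Prime := Fact.out
  obtain ⟨P, hPd⟩ : ∃ P : Subgroup G, P = Subgroup.centralizer {y0} := ⟨_, rfl⟩
  have hPmem : ∀ g, g ∈ P ↔ g * y0 = y0 * g := by
    intro g
    rw [hPd, Subgroup.mem_centralizer_singleton_iff]
  have hy0P : y0 ∈ P := (hPmem y0).2 rfl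
  have : Fintype P := Fintype.ofFinite _
  have : Fintype (G ⧸ P) := Fintype.ofFinite _
  -- the element `β_P`
  obtain ⟨βP, hβPd⟩ : ∃ βP : E, βP = ∑ q : G ⧸ P, (ρ (q.out)⁻¹ : E) * β * (((ρ (q.out)⁻¹)⁻¹ : Eˣ) : E) :=
    ⟨_, rfl⟩
  have hβP : ∑ g : P, ((ρ.comp P.subtype) g : E) * βP * ((((ρ.comp P.subtype) g)⁻¹ : Eˣ) : E) = 1 := by
    rw [← hβ, h209_coset P (fun x => (ρ x : E) * β * (((ρ x)⁻¹ : Eˣ) : E))]
    apply Finset.sum_congr rfl
    intro g _
    rw [hβPd, Finset.mul_sum, Finset.sum_mul]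
    apply Finset.sum_congr rfl
    intro q _
    have e : (ρ.comp P.subtype) g = ρ (g : G) := rfl
    rw [e, map_mul, mul_inv_rev, Units.val_mul, Units.val_mul]
    simp only [mul_assoc]
  obtain ⟨w, hwd⟩ : ∃ w : Eˣ, w = ρ y0 * v := ⟨_, rfl⟩
  have hwP : ∀ g : P, Commute ((ρ.comp P.subtype) g) w := by
    intro g
    rw [hwd]
    have h1 : Commute (g : G) y0 := (hPmem g).1 g.2
    exact (h1.map ρ).mul_right (hv g)
  have hwp : w ^ p ^ 1 = 1 := by
    rw [pow_one, hwd, (hv y0).mul_pow, ← map_pow, hy0, hc, map_one, one_mul]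
  obtain ⟨e0, he0, he0c, he0w, ⟨η1, hη1⟩, hη2⟩ := main_idem' (ρ.comp P.subtype) w hwP p 1 K le_rfl
    hK hwp βP hβP
  rw [Nat.sub_self, pow_zero, pow_one] at hη1
  simp only [Nat.sub_self, pow_zero, pow_one] at hη2
  have he0v : Commute (v : E) e0 := by
    have h1 : Commute ((ρ y0 : Eˣ) : E) e0 := he0c ⟨y0, hy0P⟩
    have h2 : (v : E) = (((ρ y0)⁻¹ : Eˣ) : E) * (w : E) := by
      rw [← Units.val_mul, hwd, inv_mul_cancel_left]
    rw [h2]
    exact h1.units_inv_left.mul_left he0w
  -- the idempotent `1 - e0`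
  obtain ⟨s, hsd⟩ : ∃ s : E, s = 1 - e0 := ⟨_, rfl⟩
  have hsc : ∀ g ∈ P, Commute (ρ g : E) s := by
    intro g hg
    rw [hsd]
    exact (Commute.one_right _).sub_right (he0c ⟨g, hg⟩)
  have hsv : Commute (v : E) s := by
    rw [hsd]; exact (Commute.one_right _).sub_right he0v
  have hs1 : ∃ η, 1 - s = TrE p (ρ y0 * v) η := by
    refine ⟨η1, ?_⟩
    rw [hsd, sub_sub_cancel, ← hwd]
    exact hη1
  have hs2 : ∀ z ∈ P, z ^ p = 1 → z ≠ y0 → ∃ η, s = TrE p (ρ z * v) η := by
    intro z hz hzp hzy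
    have hcz : Commute z y0 := (hPmem z).1 hz
    have hmem : z * y0⁻¹ ∈ P := P.mul_mem hz (P.inv_mem hy0P)
    have hord : orderOf (⟨z * y0⁻¹, hmem⟩ : P) = p := by
      rw [Subgroup.orderOf_mk]
      apply orderOf_eq_prime
      · rw [hcz.inv_right.mul_pow, hzp, inv_pow, hy0, inv_one, one_mul]
      · intro h
        exact hzy (mul_inv_eq_one.1 h)
    obtain ⟨η, hη⟩ := hη2 ⟨z * y0⁻¹, hmem⟩ hord
    refine ⟨η, ?_⟩
    rw [hsd, hη]
    congr 1
    show ρ (z * y0⁻¹) * w = ρ z * v
    rw [hwd, ← mul_assoc, ← map_mul, inv_mul_cancel_right]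
  -- the conjugates
  have hS : ∀ a b : G, (QuotientGroup.mk a : G ⧸ P) = QuotientGroup.mk b → h585c ρ a s = h585c ρ b s := by
    intro a b hab
    rw [QuotientGroup.eq] at hab
    have : b = a * (a⁻¹ * b) := by group
    rw [this, h585c_mul, h585c_fix ρ _ s (hsc _ hab)]
  let F : G ⧸ P → E := fun q => h585c ρ q.out s
  have hF : ∀ g : G, F (QuotientGroup.mk g) = h585c ρ g s := by
    intro g
    exact hS _ _ (QuotientGroup.out_eq' _)
  have hFact : ∀ (h : G) (q : G ⧸ P), F (h • q) = h585c ρ h (F q) := by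
    intro h q
    induction q using QuotientGroup.induction_on with
    | H g =>
      rw [hF g, ← h585c_mul, ← hF (h * g)]
      rfl
  have hFv : ∀ q, Commute (v : E) (F q) := fun q => h585c_commute ρ _ v s (hv _) hsv
  obtain ⟨S, hSd⟩ : ∃ S : E, S = ∑ q, F q := ⟨_, rfl⟩
  have hSg : ∀ g, Commute (ρ g : E) S := by
    intro h
    apply h585c_comm
    have e1 : h585c ρ h (∑ q, F q) = ∑ q, h585c ρ h (F q) := by
      unfold h585c
      rw [Finset.mul_sum, Finset.sum_mul]
    rw [hSd, e1]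
    rw [← Equiv.sum_comp (MulAction.toPerm h) F]
    exact Finset.sum_congr rfl (fun q _ => (hFact h q).symm)
  have hSv : Commute (v : E) S := by
    rw [hSd]
    exact Commute.sum_right _ _ _ (fun q _ => hFv q)
  -- conjugation of traces
  have hconj : ∀ (g y : G) (x η : E), x = TrE p (ρ (g⁻¹ * y * g) * v) η →
      h585c ρ g x ∈ h585T p (ρ y * v) := by
    intro g y x η hη
    rw [h585_mem]
    refine ⟨h585c ρ g η, ?_⟩
    rw [hη]
    unfold h585c
    rw [TrE_conj]
    congr 1
    rw [map_mul, map_mul, map_inv]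
    have e2 : (ρ g) * ((ρ g)⁻¹ * ρ y * ρ g * v) * (ρ g)⁻¹ = ρ y * (ρ g * v * (ρ g)⁻¹) := by group
    rw [e2, (hv g).eq, mul_assoc, mul_inv_cancel, mul_one]
  have hfixmem : ∀ (y g : G), y • (QuotientGroup.mk g : G ⧸ P) = QuotientGroup.mk g →
      g⁻¹ * y * g ∈ P := by
    intro y g h
    have hfix' : (QuotientGroup.mk (y * g) : G ⧸ P) = QuotientGroup.mk g := h
    rw [QuotientGroup.eq] at hfix'
    have := P.inv_mem hfix'
    have e : ((y * g)⁻¹ * g)⁻¹ = g⁻¹ * y * g := by group
    rwa [e] at this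
  have hpowconj : ∀ (y g : G), y ^ p = 1 → (g⁻¹ * y * g) ^ p = 1 := by
    intro y g h
    have := conj_pow (i := p) (a := g⁻¹) (b := y)
    rw [inv_inv] at this
    rw [this, h]
    group
  have hsplit : ∀ y : G, S = (∑ q, if y • q = q then 0 else F q) + ∑ q, if y • q = q then F q else 0 := by
    intro y
    rw [hSd, ← Finset.sum_add_distrib]
    refine Finset.sum_congr rfl fun q _ => ?_
    split_ifs <;> simp
  have hmoved : ∀ y : G, y ^ p = 1 → (∑ q, if y • q = q then 0 else F q) ∈ h585T p (ρ y * v) := by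
    intro y hy
    by_cases hy1 : y = 1
    · subst hy1
      have : (∑ q : G ⧸ P, if (1 : G) • q = q then (0 : E) else F q) = 0 := by
        refine Finset.sum_eq_zero fun q _ => ?_
        rw [if_pos (one_smul _ _)]
      rw [this]
      exact AddSubgroup.zero_mem _
    · exact moved_sum ρ v hv p P F hFact hFv y (orderOf_eq_prime hy hy1)
  -- elements outside the class
  have hA : ∀ y : G, y ^ p = 1 → ¬ IsConj y0 y → ∃ η, S = TrE p (ρ y * v) η := by
    intro y hy hny
    rw [← h585_mem, hsplit y]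
    refine AddSubgroup.add_mem _ (hmoved y hy) (AddSubgroup.sum_mem _ fun q _ => ?_)
    split_ifs with hq
    · induction q using QuotientGroup.induction_on with
      | H g =>
      rw [hF g]
      have hne : g⁻¹ * y * g ≠ y0 := by
        intro h
        apply hny
        rw [isConj_iff]
        refine ⟨g, ?_⟩
        rw [← h]; group
      obtain ⟨η, hη⟩ := hs2 _ (hfixmem y g hq) (hpowconj y g hy) hne
      exact hconj g y s η hη
    · exact AddSubgroup.zero_mem _
  -- the class
  have hB0 : (1 - S) ∈ h585T p (ρ y0 * v) := by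
    have h1 : (∑ q : G ⧸ P, if y0 • q = q then F q else 0) - s ∈ h585T p (ρ y0 * v) := by
      have h2 : (∑ q : G ⧸ P, if y0 • q = q then F q else 0) - s =
          ∑ q : G ⧸ P, ((if y0 • q = q then F q else 0) - if q = QuotientGroup.mk 1 then s else 0) := by
        rw [Finset.sum_sub_distrib]
        congr 1
        rw [Finset.sum_ite_eq' Finset.univ (QuotientGroup.mk 1 : G ⧸ P) (fun _ => s),
          if_pos (Finset.mem_univ _)]
      rw [h2]
      refine AddSubgroup.sum_mem _ fun q _ => ?_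
      induction q using QuotientGroup.induction_on with
      | H g =>
      by_cases h1g : (QuotientGroup.mk g : G ⧸ P) = QuotientGroup.mk 1
      · have hfix : y0 • (QuotientGroup.mk g : G ⧸ P) = QuotientGroup.mk g := by
          rw [h1g]
          show (QuotientGroup.mk (y0 * 1) : G ⧸ P) = QuotientGroup.mk 1
          rw [QuotientGroup.eq, mul_one, mul_one]
          exact P.inv_mem hy0P
        rw [if_pos hfix, if_pos h1g, h1g, hF 1, h585c_one, sub_self]
        exact AddSubgroup.zero_mem _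
      · rw [if_neg h1g, sub_zero]
        split_ifs with hq
        · rw [hF g]
          have hne : g⁻¹ * y0 * g ≠ y0 := by
            intro h
            apply h1g
            rw [QuotientGroup.eq, mul_one]
            apply P.inv_mem
            rw [hPmem]
            calc g * y0 = g * (g⁻¹ * y0 * g) := by rw [h]
              _ = y0 * g := by group
          obtain ⟨η, hη⟩ := hs2 _ (hfixmem y0 g hq) (hpowconj y0 g hy0) hne
          exact hconj g y0 s η hη
        · exact AddSubgroup.zero_mem _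
    have h3 : 1 - S = (1 - s) - ((∑ q, if y0 • q = q then 0 else F q) +
        ((∑ q : G ⧸ P, if y0 • q = q then F q else 0) - s)) := by
      rw [hsplit y0]; abel
    rw [h3]
    exact AddSubgroup.sub_mem _ (by rw [h585_mem]; exact hs1)
      (AddSubgroup.add_mem _ (hmoved y0 hy0) h1)
  have hB : ∀ y : G, IsConj y0 y → ∃ η, 1 - S = TrE p (ρ y * v) η := by
    intro y hy
    obtain ⟨g, hg⟩ := isConj_iff.1 hy
    obtain ⟨η, hη⟩ := (h585_mem _ _ _).1 hB0
    have h1 : g⁻¹ * y * g = y0 := by rw [← hg]; group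
    have h2 := hconj g y (1 - S) η (by rw [h1]; exact hη)
    rw [h585c_fix ρ g (1 - S) ((Commute.one_right _).sub_right (hSg g))] at h2
    exact (h585_mem _ _ _).1 h2
  obtain ⟨N, hN, hidem, -⟩ := idem_of p K hp hK S 1 (by
    intro h; exact hp.one_lt.ne' (Nat.dvd_one.1 h))
  refine ⟨S ^ N, hidem, fun g => (hSg g).pow_right N, hSv.pow_right N, ?_, ?_⟩
  · intro y hy
    obtain ⟨η, hη⟩ := hB y hy
    refine ⟨η * ∑ i ∈ Finset.range N, S ^ i, ?_⟩
    have hcom : Commute ((ρ y * v : Eˣ) : E) S := by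
      rw [Units.val_mul]; exact (hSg y).mul_left hSv
    rw [TrE_mul_right p (ρ y * v) η _ (Commute.sum_right _ _ _ fun i _ => hcom.pow_right i), ← hη]
    exact (mul_neg_geom_sum S N).symm
  · intro y hy hny
    obtain ⟨η, hη⟩ := hA y hy hny
    refine ⟨η * S ^ (N - 1), ?_⟩
    have hcom : Commute ((ρ y * v : Eˣ) : E) S := by
      rw [Units.val_mul]; exact (hSg y).mul_left hSv
    rw [TrE_mul_right p (ρ y * v) η _ (hcom.pow_right _), ← hη, ← pow_succ', Nat.sub_add_cancel hN]

end Pool.Agent.H64
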