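import Mathlib
import Pool.Agent.H64.U1
import Pool.Graph.R_pool_sql_team_seeded_620a6dc7.Helper495_PQ.PC3
set_option autoImplicit false
namespace Pool.Agent.H64
open Pool.Agent.Helper495_PQ

/-- the elements with a given `p`-part contribute zero -/
theorem fiber_zero {p : ℕ} [Fact p.Prime] (K c : ℕ) {W : Type}
    [AddCommGroup W] [Module (ZMod (p ^ K)) W]
    {G : Type} [Group G] [Fintype G] (ρ : G →* (Module.End (ZMod (p ^ K)) W)ˣ)
    (v : (Module.End (ZMod (p ^ K)) W)ˣ) (hv : ∀ g, Commute (ρ g) v)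
    (tr : Module.End (ZMod (p ^ K)) W →ₗ[ZMod (p ^ K)] ZMod (p ^ K))
    (htr : ∀ (x : (Module.End (ZMod (p ^ K)) W)ˣ) (ε η : Module.End (ZMod (p ^ K)) W),
      x ^ p ^ c = 1 → ε * ε = ε → Commute (x : Module.End (ZMod (p ^ K)) W) ε →
      ε = TrE p (x ^ p ^ (c - 1)) η → tr ((x : Module.End (ZMod (p ^ K)) W) * ε) = 0)
    (ε : Module.End (ZMod (p ^ K)) W) (hε : ε * ε = ε)
    (hρε : ∀ g, Commute (ρ g : Module.End (ZMod (p ^ K)) W) ε)
    (hvε : Commute (v : Module.End (ZMod (p ^ K)) W) ε)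
    (q m e : ℕ) (hqm : Nat.Coprime q m) (a : ℕ) (hq : q = p ^ a) (hpm : Nat.Coprime p m)
    (hcard : ∀ g : G, g ^ (q * m) = 1)
    (he1 : e ≡ 1 [MOD q]) (he0 : e ≡ 0 [MOD m]) (x : G) (hxq : x ^ q = 1)
    (hX : (ρ x * v) ^ p ^ c = 1) (hη : ∃ η, ε = TrE p ((ρ x * v) ^ p ^ (c - 1)) η)
    [DecidableEq G] :
    ∑ g ∈ Finset.univ.filter (fun g : G => g ^ e = x),
      tr ((ρ g : Module.End (ZMod (p ^ K)) W) * v * ε) = 0 := by
  classical
  obtain ⟨η, hη⟩ := hη
  set F : G → ZMod (p ^ K) := fun g =>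
    tr ((ρ g : Module.End (ZMod (p ^ K)) W) * v * ε) with hF
  have hlev := fun g : G => h275_level (p := p) q m e hqm a hq hpm hcard he1 he0 g
  have hxe : x ^ e = x := by
    conv_rhs => rw [← pow_one x]
    rw [pow_eq_pow_iff_modEq]
    exact he1.of_dvd (orderOf_dvd_of_pow_eq_one hxq)
  have hbij : ∑ g ∈ Finset.univ.filter (fun g : G => g ^ e = x), F g =
      ∑ n ∈ Finset.univ.filter (fun n : G => Commute x n ∧ n ^ m = 1), F (x * n) := by
    refine Finset.sum_nbij' (fun g => x⁻¹ * g) (fun n => x * n) ?_ ?_ ?_ ?_ ?_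
    · intro g hg
      rw [Finset.mem_filter] at hg
      rw [Finset.mem_filter]
      obtain ⟨-, hgx⟩ := hg
      refine ⟨Finset.mem_univ _, ?_, ?_⟩
      · rw [← hgx]
        exact ((Commute.refl (g ^ e)).inv_right).mul_right ((Commute.refl g).pow_left e)
      · rw [← hgx]
        exact (hlev g).2.1
    · intro n hn
      rw [Finset.mem_filter] at hn
      obtain ⟨-, hc1, hnm⟩ := hn
      have hne : n ^ e = 1 := by
        obtain ⟨k, hk⟩ := Nat.modEq_zero_iff_dvd.1 he0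
        rw [hk, pow_mul, hnm, one_pow]
      have hxn : (x * n) ^ e = x := by rw [hc1.mul_pow, hxe, hne, mul_one]
      rw [Finset.mem_filter]
      exact ⟨Finset.mem_univ _, hxn⟩
    · intro g _
      simp
    · intro n _
      simp
    · intro g _
      simp
  show ∑ g ∈ Finset.univ.filter (fun g : G => g ^ e = x), F g = 0
  rw [hbij]
  apply h275_sum_closed (fun n => F (x * n)) _ _ rfl
  · intro n hn y hy
    rw [Finset.mem_filter] at hn ⊢
    obtain ⟨z, rfl⟩ := Subgroup.mem_zpowers_iff.1 hy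
    refine ⟨Finset.mem_univ _, hn.2.1.zpow_right z, ?_⟩
    rw [← zpow_natCast, ← zpow_mul, mul_comm, zpow_mul, zpow_natCast, hn.2.2, one_zpow]
  · intro n hn
    rw [Finset.mem_filter] at hn
    obtain ⟨-, hcx, hnm⟩ := hn
    have hN : Nat.Coprime (orderOf n) p :=
      (Nat.Coprime.coprime_dvd_right (orderOf_dvd_of_pow_eq_one hnm) hpm).symm
    have hρn : (ρ n : Module.End (ZMod (p ^ K)) W) ^ orderOf n = 1 := by
      rw [← Units.val_pow_eq_pow_val, ← map_pow, pow_orderOf_eq_one, map_one, Units.val_one]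
    have hvn : Commute (v : Module.End (ZMod (p ^ K)) W) (ρ n : Module.End (ZMod (p ^ K)) W) := by
      have := hv n
      exact (this.units_val).symm
    have hxn : Commute (ρ x : Module.End (ZMod (p ^ K)) W) (ρ n : Module.End (ZMod (p ^ K)) W) :=
      (hcx.map ρ).units_val
    have hXA : Commute ((ρ x * v : (Module.End (ZMod (p ^ K)) W)ˣ) : Module.End (ZMod (p ^ K)) W)
        (ρ n : Module.End (ZMod (p ^ K)) W) := by
      rw [Units.val_mul]
      exact hxn.mul_left hvn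
    have hXε : Commute ((ρ x * v : (Module.End (ZMod (p ^ K)) W)ˣ) : Module.End (ZMod (p ^ K)) W) ε := by
      rw [Units.val_mul]
      exact (hρε x).mul_left hvε
    have hcl := h275_claim1 K c tr htr ε hε (ρ x * v) (ρ n : Module.End (ZMod (p ^ K)) W)
      (orderOf n) hN hρn hXA hXε (hρε n) hX η hη
    rw [← hcl]
    apply Finset.sum_congr rfl
    intro i _
    rw [hF]
    simp only
    congr 1
    rw [map_mul, map_pow, Units.val_mul, Units.val_pow_eq_pow_val, Units.val_mul]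
    congr 1
    rw [mul_assoc, mul_assoc, (hvn.pow_right i).eq]

/-- the trace identity for one conjugacy class of elements of order dividing `p` -/
theorem class_trace0 {p : ℕ} [Fact p.Prime] (K : ℕ) (hK : 1 ≤ K) {W : Type}
    [AddCommGroup W] [Finite W] [Module (ZMod (p ^ K)) W] [Module.Finite (ZMod (p ^ K)) W]
    [Module.Free (ZMod (p ^ K)) W]
    {G : Type} [Group G] [Fintype G] [DecidableEq G] (ρ : G →* (Module.End (ZMod (p ^ K)) W)ˣ)
    (v : (Module.End (ZMod (p ^ K)) W)ˣ) (hv : ∀ g, Commute (ρ g) v) (hc : v ^ p = 1)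
    (β : Module.End (ZMod (p ^ K)) W)
    (hβ : ∑ g : G, (ρ g : Module.End (ZMod (p ^ K)) W) * β *
      (((ρ g)⁻¹ : (Module.End (ZMod (p ^ K)) W)ˣ) : Module.End (ZMod (p ^ K)) W) = 1)
    (q m e : ℕ) (hqm : Nat.Coprime q m) (a : ℕ) (hq : q = p ^ a) (hpm : Nat.Coprime p m)
    (hcard : ∀ g : G, g ^ (q * m) = 1)
    (he1 : e ≡ 1 [MOD q]) (he0 : e ≡ 0 [MOD m]) (y0 : G) (hy0 : y0 ^ p = 1) :
    ∃ ε : Module.End (ZMod (p ^ K)) W, ε * ε = ε ∧
      (∀ g, Commute (ρ g : Module.End (ZMod (p ^ K)) W) ε) ∧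
      Commute (v : Module.End (ZMod (p ^ K)) W) ε ∧
      ∀ [DecidablePred fun g : G => IsConj y0 (g ^ e)],
      ∑ g ∈ Finset.univ.filter (fun g : G => IsConj y0 (g ^ e)),
        LinearMap.trace (ZMod (p ^ K)) W ((ρ g : Module.End (ZMod (p ^ K)) W) * v) =
      ∑ g : G, LinearMap.trace (ZMod (p ^ K)) W ((ρ g : Module.End (ZMod (p ^ K)) W) * v * ε) := by
  classical
  have hp : p.Prime := Fact.out
  have hfin : Finite (Module.End (ZMod (p ^ K)) W) :=
    Finite.of_injective (fun f : Module.End (ZMod (p ^ K)) W => (f : W → W)) DFunLike.coe_injective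
  have hK0 : (p : Module.End (ZMod (p ^ K)) W) ^ K = 0 := by
    rw [← Nat.cast_pow]
    have h1 : ((p ^ K : ℕ) : ZMod (p ^ K)) = 0 := ZMod.natCast_self _
    have h2 : ((p ^ K : ℕ) : Module.End (ZMod (p ^ K)) W) =
        algebraMap (ZMod (p ^ K)) (Module.End (ZMod (p ^ K)) W) ((p ^ K : ℕ) : ZMod (p ^ K)) := by
      rw [map_natCast]
    rw [h2, h1, map_zero]
  obtain ⟨ε, hεε, hρε, hvε, hε1, hε2⟩ := class_idem ρ v hv p K hK0 hc β hβ y0 hy0
  refine ⟨ε, hεε, hρε, hvε, ?_⟩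
  intro _
  have hlev := fun g : G => h275_level (p := p) q m e hqm a hq hpm hcard he1 he0 g
  have htr : ∀ c, 1 ≤ c → ∀ (x : (Module.End (ZMod (p ^ K)) W)ˣ) (ε η : Module.End (ZMod (p ^ K)) W),
      x ^ p ^ c = 1 → ε * ε = ε → Commute (x : Module.End (ZMod (p ^ K)) W) ε →
      ε = TrE p (x ^ p ^ (c - 1)) η →
      LinearMap.trace (ZMod (p ^ K)) W ((x : Module.End (ZMod (p ^ K)) W) * ε) = 0 :=
    fun c hc x ε η h1 h2 h3 h4 => trace_idem_zero K c hK hc x h1 ε η h2 h3 h4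
  have hpow : ∀ (x : G) (n : ℕ), (ρ x * v) ^ n = ρ (x ^ n) * v ^ n := by
    intro x n
    rw [(hv x).mul_pow, map_pow]
  -- each fibre
  have hin : ∀ x : G, x ^ q = 1 → IsConj y0 x → ∑ g ∈ Finset.univ.filter (fun g : G => g ^ e = x),
      LinearMap.trace (ZMod (p ^ K)) W ((ρ g : Module.End (ZMod (p ^ K)) W) * v * (1 - ε)) = 0 := by
    intro x hxq hx
    refine fiber_zero K 1 ρ v hv _ (htr 1 le_rfl) (1 - ε) ?_ ?_ ?_ q m e hqm a hq hpm hcard he1 he0 x
      hxq ?_ ?_
    · rw [mul_sub, sub_mul, sub_mul, one_mul, mul_one, one_mul, hεε]; abel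
    · intro g; exact (Commute.one_right _).sub_right (hρε g)
    · exact (Commute.one_right _).sub_right hvε
    · have hxp : x ^ p = 1 := by
        obtain ⟨g, hg⟩ := isConj_iff.1 hx
        rw [← hg, conj_pow, hy0]; group
      rw [pow_one, hpow, hxp, hc, map_one, one_mul]
    · rw [Nat.sub_self, pow_zero, pow_one]
      exact hε1 x hx
  have hout : ∀ x : G, x ^ q = 1 → ¬ IsConj y0 x → ∑ g ∈ Finset.univ.filter (fun g : G => g ^ e = x),
      LinearMap.trace (ZMod (p ^ K)) W ((ρ g : Module.End (ZMod (p ^ K)) W) * v * ε) = 0 := by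
    intro x hxq hx
    by_cases hxp : x ^ p = 1
    · refine fiber_zero K 1 ρ v hv _ (htr 1 le_rfl) ε hεε hρε hvε q m e hqm a hq hpm hcard he1 he0 x
        hxq ?_ ?_
      · rw [pow_one, hpow, hxp, hc, map_one, one_mul]
      · rw [Nat.sub_self, pow_zero, pow_one]
        exact hε2 x hxp hx
    · obtain ⟨b, -, hb⟩ := (Nat.dvd_prime_pow hp).1 (hq ▸ orderOf_dvd_of_pow_eq_one hxq)
      have hb2 : 2 ≤ b := by
        by_contra hcon
        apply hxp
        rw [← orderOf_dvd_iff_pow_eq_one, hb]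
        have : b ≤ 1 := by omega
        calc p ^ b ∣ p ^ 1 := pow_dvd_pow p this
          _ = p := pow_one p
      refine fiber_zero K b ρ v hv _ (htr b (by omega)) ε hεε hρε hvε q m e hqm a hq hpm hcard he1 he0 x
        hxq ?_ ?_
      · have h1 : v ^ p ^ b = 1 := by
          rw [show b = 1 + (b - 1) by omega, pow_add, pow_one, pow_mul, hc, one_pow]
        rw [hpow, h1, mul_one, ← hb, pow_orderOf_eq_one, map_one]
      · have h1 : v ^ p ^ (b - 1) = 1 := by
          rw [show b - 1 = 1 + (b - 2) by omega, pow_add, pow_one, pow_mul, hc, one_pow]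
        have hdvd : p ^ (b - 1) ∣ orderOf x := by rw [hb]; exact pow_dvd_pow p (by omega)
        have hord : orderOf (x ^ p ^ (b - 1)) = p := by
          rw [orderOf_pow_of_dvd (pow_ne_zero _ hp.ne_zero) hdvd, hb, Nat.pow_div (by omega) hp.pos]
          rw [show b - (b - 1) = 1 by omega, pow_one]
        obtain ⟨η, hη⟩ := pc3_coset ρ β hβ (x ^ p ^ (b - 1)) p hord
        refine ⟨η * ε, ?_⟩
        rw [hpow, h1, mul_one, TrE_mul_right _ _ _ _ (hρε _), hη, one_mul]
  -- assembling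
  have hA : ∑ g ∈ Finset.univ.filter (fun g : G => IsConj y0 (g ^ e)),
      LinearMap.trace (ZMod (p ^ K)) W ((ρ g : Module.End (ZMod (p ^ K)) W) * v * (1 - ε)) = 0 := by
    rw [← Finset.sum_fiberwise_of_maps_to (s := Finset.univ.filter (fun g : G => IsConj y0 (g ^ e)))
      (t := Finset.univ.filter (fun x : G => x ^ q = 1 ∧ IsConj y0 x)) (g := fun g => g ^ e)]
    · refine Finset.sum_eq_zero fun x hx => ?_
      rw [Finset.mem_filter] at hx
      rw [← hin x hx.2.1 hx.2.2]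
      refine Finset.sum_congr ?_ fun _ _ => rfl
      ext g
      simp only [Finset.mem_filter, Finset.mem_univ, true_and]
      constructor
      · rintro ⟨-, h⟩; exact h
      · intro h; exact ⟨by rw [h]; exact hx.2.2, h⟩
    · intro g hg
      rw [Finset.mem_filter] at hg ⊢
      exact ⟨Finset.mem_univ _, (hlev g).1, hg.2⟩
  have hB : ∑ g ∈ Finset.univ.filter (fun g : G => ¬ IsConj y0 (g ^ e)),
      LinearMap.trace (ZMod (p ^ K)) W ((ρ g : Module.End (ZMod (p ^ K)) W) * v * ε) = 0 := by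
    rw [← Finset.sum_fiberwise_of_maps_to (s := Finset.univ.filter (fun g : G => ¬ IsConj y0 (g ^ e)))
      (t := Finset.univ.filter (fun x : G => x ^ q = 1 ∧ ¬ IsConj y0 x)) (g := fun g => g ^ e)]
    · refine Finset.sum_eq_zero fun x hx => ?_
      rw [Finset.mem_filter] at hx
      rw [← hout x hx.2.1 hx.2.2]
      refine Finset.sum_congr ?_ fun _ _ => rfl
      ext g
      simp only [Finset.mem_filter, Finset.mem_univ, true_and]
      constructor
      · rintro ⟨-, h⟩; exact h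
      · intro h; exact ⟨by rw [h]; exact hx.2.2, h⟩
    · intro g hg
      rw [Finset.mem_filter] at hg ⊢
      exact ⟨Finset.mem_univ _, (hlev g).1, hg.2⟩
  have hsplit := Finset.sum_filter_add_sum_filter_not Finset.univ (fun g : G => IsConj y0 (g ^ e))
    (fun g => LinearMap.trace (ZMod (p ^ K)) W ((ρ g : Module.End (ZMod (p ^ K)) W) * v * ε))
  rw [hB, add_zero] at hsplit
  rw [← hsplit]
  have hdiff : ∑ g ∈ Finset.univ.filter (fun g : G => IsConj y0 (g ^ e)),
        LinearMap.trace (ZMod (p ^ K)) W ((ρ g : Module.End (ZMod (p ^ K)) W) * v) =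
      ∑ g ∈ Finset.univ.filter (fun g : G => IsConj y0 (g ^ e)),
        LinearMap.trace (ZMod (p ^ K)) W ((ρ g : Module.End (ZMod (p ^ K)) W) * v * (1 - ε)) +
      ∑ g ∈ Finset.univ.filter (fun g : G => IsConj y0 (g ^ e)),
        LinearMap.trace (ZMod (p ^ K)) W ((ρ g : Module.End (ZMod (p ^ K)) W) * v * ε) := by
    rw [← Finset.sum_add_distrib]
    refine Finset.sum_congr rfl fun g _ => ?_
    rw [← map_add, ← mul_add, sub_add_cancel, mul_one]
  rw [hdiff, hA, zero_add]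

/-- the trace identity for one conjugacy class of `p`-elements -/
theorem class_trace {p : ℕ} [Fact p.Prime] (K : ℕ) (hK : 1 ≤ K) {W : Type}
    [AddCommGroup W] [Finite W] [Module (ZMod (p ^ K)) W] [Module.Finite (ZMod (p ^ K)) W]
    [Module.Free (ZMod (p ^ K)) W]
    {G : Type} [Group G] [Fintype G] [DecidableEq G] (ρ : G →* (Module.End (ZMod (p ^ K)) W)ˣ)
    (v : (Module.End (ZMod (p ^ K)) W)ˣ) (hv : ∀ g, Commute (ρ g) v) (hc : v ^ p = 1)
    (β : Module.End (ZMod (p ^ K)) W)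
    (hβ : ∑ g : G, (ρ g : Module.End (ZMod (p ^ K)) W) * β *
      (((ρ g)⁻¹ : (Module.End (ZMod (p ^ K)) W)ˣ) : Module.End (ZMod (p ^ K)) W) = 1)
    (q m e : ℕ) (hqm : Nat.Coprime q m) (a : ℕ) (hq : q = p ^ a) (hpm : Nat.Coprime p m)
    (hcard : ∀ g : G, g ^ (q * m) = 1)
    (he1 : e ≡ 1 [MOD q]) (he0 : e ≡ 0 [MOD m]) (y0 : G) (hy0 : y0 ^ q = 1) :
    ∃ ε : Module.End (ZMod (p ^ K)) W, ε * ε = ε ∧
      (∀ g, Commute (ρ g : Module.End (ZMod (p ^ K)) W) ε) ∧
      Commute (v : Module.End (ZMod (p ^ K)) W) ε ∧ (y0 ^ p ≠ 1 → ε = 0) ∧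
      ∀ [DecidablePred fun g : G => IsConj y0 (g ^ e)],
      ∑ g ∈ Finset.univ.filter (fun g : G => IsConj y0 (g ^ e)),
        LinearMap.trace (ZMod (p ^ K)) W ((ρ g : Module.End (ZMod (p ^ K)) W) * v) =
      ∑ g : G, LinearMap.trace (ZMod (p ^ K)) W ((ρ g : Module.End (ZMod (p ^ K)) W) * v * ε) := by
  classical
  by_cases hyp : y0 ^ p = 1
  · obtain ⟨ε, h1, h2, h3, h4⟩ := class_trace0 K hK ρ v hv hc β hβ q m e hqm a hq hpm hcard he1 he0
      y0 hyp
    exact ⟨ε, h1, h2, h3, fun h => absurd hyp h, h4⟩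
  have hp : p.Prime := Fact.out
  refine ⟨0, mul_zero _, fun g => Commute.zero_right _, Commute.zero_right _, fun _ => rfl, ?_⟩
  intro _
  have hlev := fun g : G => h275_level (p := p) q m e hqm a hq hpm hcard he1 he0 g
  have htr : ∀ c, 1 ≤ c → ∀ (x : (Module.End (ZMod (p ^ K)) W)ˣ) (ε η : Module.End (ZMod (p ^ K)) W),
      x ^ p ^ c = 1 → ε * ε = ε → Commute (x : Module.End (ZMod (p ^ K)) W) ε →
      ε = TrE p (x ^ p ^ (c - 1)) η →
      LinearMap.trace (ZMod (p ^ K)) W ((x : Module.End (ZMod (p ^ K)) W) * ε) = 0 :=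
    fun c hc x ε η h1 h2 h3 h4 => trace_idem_zero K c hK hc x h1 ε η h2 h3 h4
  have hpow : ∀ (x : G) (n : ℕ), (ρ x * v) ^ n = ρ (x ^ n) * v ^ n := by
    intro x n
    rw [(hv x).mul_pow, map_pow]
  have hout : ∀ x : G, x ^ q = 1 → IsConj y0 x → ∑ g ∈ Finset.univ.filter (fun g : G => g ^ e = x),
      LinearMap.trace (ZMod (p ^ K)) W ((ρ g : Module.End (ZMod (p ^ K)) W) * v * 1) = 0 := by
    intro x hxq hx
    have hxp : ¬ x ^ p = 1 := by
      intro h
      apply hyp
      obtain ⟨g, hg⟩ := isConj_iff.1 hx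
      have h1 : y0 = g⁻¹ * x * g := by rw [← hg]; group
      have h2 := conj_pow (i := p) (a := g⁻¹) (b := x)
      rw [inv_inv] at h2
      rw [h1, h2, h]; group
    obtain ⟨b, -, hb⟩ := (Nat.dvd_prime_pow hp).1 (hq ▸ orderOf_dvd_of_pow_eq_one hxq)
    have hb2 : 2 ≤ b := by
      by_contra hcon
      apply hxp
      rw [← orderOf_dvd_iff_pow_eq_one, hb]
      have : b ≤ 1 := by omega
      calc p ^ b ∣ p ^ 1 := pow_dvd_pow p this
        _ = p := pow_one p
    refine fiber_zero K b ρ v hv _ (htr b (by omega)) 1 (one_mul _) (fun _ => Commute.one_right _)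
      (Commute.one_right _) q m e hqm a hq hpm hcard he1 he0 x hxq ?_ ?_
    · have h1 : v ^ p ^ b = 1 := by
        rw [show b = 1 + (b - 1) by omega, pow_add, pow_one, pow_mul, hc, one_pow]
      rw [hpow, h1, mul_one, ← hb, pow_orderOf_eq_one, map_one]
    · have h1 : v ^ p ^ (b - 1) = 1 := by
        rw [show b - 1 = 1 + (b - 2) by omega, pow_add, pow_one, pow_mul, hc, one_pow]
      have hdvd : p ^ (b - 1) ∣ orderOf x := by rw [hb]; exact pow_dvd_pow p (by omega)
      have hord : orderOf (x ^ p ^ (b - 1)) = p := by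
        rw [orderOf_pow_of_dvd (pow_ne_zero _ hp.ne_zero) hdvd, hb, Nat.pow_div (by omega) hp.pos]
        rw [show b - (b - 1) = 1 by omega, pow_one]
      obtain ⟨η, hη⟩ := pc3_coset ρ β hβ (x ^ p ^ (b - 1)) p hord
      refine ⟨η, ?_⟩
      rw [hpow, h1, mul_one, hη]
  simp only [mul_zero, map_zero, Finset.sum_const_zero]
  rw [← Finset.sum_fiberwise_of_maps_to (s := Finset.univ.filter (fun g : G => IsConj y0 (g ^ e)))
      (t := Finset.univ.filter (fun x : G => x ^ q = 1 ∧ IsConj y0 x)) (g := fun g => g ^ e)]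
  · refine Finset.sum_eq_zero fun x hx => ?_
    rw [Finset.mem_filter] at hx
    rw [← hout x hx.2.1 hx.2.2]
    simp only [mul_one]
    refine Finset.sum_congr ?_ fun _ _ => rfl
    ext g
    simp only [Finset.mem_filter, Finset.mem_univ, true_and]
    constructor
    · rintro ⟨-, h⟩; exact h
    · intro h; exact ⟨by rw [h]; exact hx.2.2, h⟩
  · intro g hg
    rw [Finset.mem_filter] at hg ⊢
    exact ⟨Finset.mem_univ _, (hlev g).1, hg.2⟩

end Pool.Agent.H64
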