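import Mathlib
import Pool.Agent.H64.U2
import Pool.Graph.R_pool_sql_team_seeded_620a6dc7.Helper495_SP.J16
set_option autoImplicit false
namespace Pool.Agent.H64
open Pool.Agent.Helper495_PQ
open Pool.Agent.Helper495_SP (trace_formula)

theorem class_sum_mod {p : ℕ} [Fact p.Prime] (K : ℕ) (hK : 1 ≤ K)
    {G : Type} [Group G] [Fintype G] (v : MonoidAlgebra (ZMod (p ^ K)) G)
    (haug : MonoidAlgebra.lift (ZMod (p ^ K)) (ZMod (p ^ K)) G (1 : G →* ZMod (p ^ K)) v = 1)
    (hvp : v ^ p = 1)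
    (q m e : ℕ) (hqm : Nat.Coprime q m) (a : ℕ) (hq : q = p ^ a) (hpm : Nat.Coprime p m)
    (hcard : ∀ g : G, g ^ (q * m) = 1)
    (he1 : e ≡ 1 [MOD q]) (he0 : e ≡ 0 [MOD m]) (y0 : G) (hy0 : y0 ^ q = 1)
    [DecidablePred fun g : G => IsConj y0 (g ^ e)] :
    ∃ c : ZMod (p ^ K), c * c = c ∧ (y0 ^ p ≠ 1 → c = 0) ∧ (Fintype.card G : ZMod (p ^ K)) *
      (∑ g ∈ Finset.univ.filter (fun g : G => IsConj y0 (g ^ e)), v.coeff g) =
      (Fintype.card G : ZMod (p ^ K)) * c := by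
  classical
  have : NeZero (p ^ K) := ⟨(pow_pos (Fact.out : p.Prime).pos K).ne'⟩
  have : Finite (MonoidAlgebra (ZMod (p ^ K)) G) :=
    Finite.of_equiv _ (MonoidAlgebra.coeffEquiv (R := ZMod (p ^ K)) (M := G)).symm
  -- the representation
  obtain ⟨ρ, hρ⟩ : ∃ ρ : G →* (Module.End (ZMod (p ^ K)) (MonoidAlgebra (ZMod (p ^ K)) G))ˣ,
      ∀ g x, ((ρ g : (Module.End (ZMod (p ^ K)) (MonoidAlgebra (ZMod (p ^ K)) G))ˣ) :
        Module.End (ZMod (p ^ K)) (MonoidAlgebra (ZMod (p ^ K)) G)) x =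
          MonoidAlgebra.single g (1 : ZMod (p ^ K)) * x := by
    refine ⟨MonoidHom.toHomUnits (((Algebra.lmul (ZMod (p ^ K))
      (MonoidAlgebra (ZMod (p ^ K)) G)) : _ →* _).comp (MonoidAlgebra.of (ZMod (p ^ K)) G)),
      fun g x => rfl⟩
  have hρinv : ∀ g x, (((ρ g)⁻¹ : (Module.End (ZMod (p ^ K)) (MonoidAlgebra (ZMod (p ^ K)) G))ˣ) :
        Module.End (ZMod (p ^ K)) (MonoidAlgebra (ZMod (p ^ K)) G)) x =
          MonoidAlgebra.single g⁻¹ (1 : ZMod (p ^ K)) * x := by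
    intro g x
    rw [← map_inv, hρ]
  have hne : p ≠ 0 := (Fact.out : p.Prime).pos.ne'
  have hvpow : (LinearMap.mulRight (ZMod (p ^ K)) v :
      Module.End (ZMod (p ^ K)) (MonoidAlgebra (ZMod (p ^ K)) G)) ^ p = 1 := by
    rw [LinearMap.pow_mulRight, hvp]
    ext x
    simp
  obtain ⟨V, hV⟩ : ∃ V : (Module.End (ZMod (p ^ K)) (MonoidAlgebra (ZMod (p ^ K)) G))ˣ,
      (V : Module.End (ZMod (p ^ K)) (MonoidAlgebra (ZMod (p ^ K)) G)) =
        LinearMap.mulRight (ZMod (p ^ K)) v := ⟨Units.ofPowEqOne _ _ hvpow hne, rfl⟩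
  have hsum1 : ∀ x : MonoidAlgebra (ZMod (p ^ K)) G,
      ∑ g : G, MonoidAlgebra.single g (x.coeff g) = x := by
    intro x
    ext k
    rw [MonoidAlgebra.coeff_sum, Finsupp.finsetSum_apply, Finset.sum_eq_single k]
    · simp
    · intro b _ hb
      simp [hb]
    · intro h; exact absurd (Finset.mem_univ _) h
  have hcoeff : ∀ (g k : G) (x : MonoidAlgebra (ZMod (p ^ K)) G),
      (MonoidAlgebra.single g (1 : ZMod (p ^ K)) * x).coeff k = x.coeff (g⁻¹ * k) := by
    intro g k x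
    rw [MonoidAlgebra.coeff_single_mul_eq_mul_coeff (g⁻¹ * k), one_mul]
    intro m' _
    constructor
    · intro h; rw [← h]; group
    · intro h; rw [h]; group
  have haugx : ∀ x : MonoidAlgebra (ZMod (p ^ K)) G,
      MonoidAlgebra.lift (ZMod (p ^ K)) (ZMod (p ^ K)) G (1 : G →* ZMod (p ^ K)) x =
        ∑ g : G, x.coeff g := by
    intro x
    rw [MonoidAlgebra.lift_apply, Finsupp.sum_fintype _ _ (by simp)]
    simp
  obtain ⟨s, hsd⟩ : ∃ s : MonoidAlgebra (ZMod (p ^ K)) G,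
      s = ∑ g : G, MonoidAlgebra.single g (1 : ZMod (p ^ K)) := ⟨_, rfl⟩
  have hs1 : ∀ k : G, s.coeff k = 1 := by
    intro k
    rw [hsd, MonoidAlgebra.coeff_sum, Finsupp.finsetSum_apply, Finset.sum_eq_single k]
    · simp
    · intro b _ hb
      simp [hb]
    · intro h; exact absurd (Finset.mem_univ _) h
  have hs : ∀ x : MonoidAlgebra (ZMod (p ^ K)) G,
      (∑ g : G, MonoidAlgebra.single g (1 : ZMod (p ^ K))) * x =
      (MonoidAlgebra.lift (ZMod (p ^ K)) (ZMod (p ^ K)) G (1 : G →* ZMod (p ^ K)) x) • s := by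
    intro x
    ext k
    rw [Finset.sum_mul, MonoidAlgebra.coeff_sum, Finsupp.finsetSum_apply]
    simp only [hcoeff]
    rw [MonoidAlgebra.coeff_smul_apply, hs1, smul_eq_mul, mul_one, haugx]
    exact Fintype.sum_equiv ((Equiv.inv G).trans (Equiv.mulRight k)) _ _ (fun g => by simp)
  obtain ⟨N, hNd⟩ : ∃ N : Module.End (ZMod (p ^ K)) (MonoidAlgebra (ZMod (p ^ K)) G),
      N = ∑ g : G, ((ρ g : (Module.End (ZMod (p ^ K)) (MonoidAlgebra (ZMod (p ^ K)) G))ˣ) :
        Module.End (ZMod (p ^ K)) (MonoidAlgebra (ZMod (p ^ K)) G)) := ⟨_, rfl⟩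
  have hN : ∀ x, N x = (MonoidAlgebra.lift (ZMod (p ^ K)) (ZMod (p ^ K)) G (1 : G →* ZMod (p ^ K)) x) • s := by
    intro x
    rw [hNd, LinearMap.sum_apply]
    simp only [hρ]
    rw [← Finset.sum_mul, hs]
  obtain ⟨ε, hεε, hρε, hvε, hε0, htr⟩ := class_trace K hK ρ V (by
      intro g
      rw [Commute, SemiconjBy, ← Units.val_inj, Units.val_mul, Units.val_mul, hV]
      refine LinearMap.ext fun x => ?_
      show (ρ g : Module.End (ZMod (p ^ K)) (MonoidAlgebra (ZMod (p ^ K)) G)) (x * v) = _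
      rw [hρ]
      show _ = ((ρ g : Module.End (ZMod (p ^ K)) (MonoidAlgebra (ZMod (p ^ K)) G)) x) * v
      rw [hρ, mul_assoc]) (by
      rw [← Units.val_inj, Units.val_pow_eq_pow_val, hV, hvpow, Units.val_one])
    { toFun := fun m => MonoidAlgebra.single 1 (m.coeff 1)
      map_add' := fun x y => by
        rw [MonoidAlgebra.coeff_add, Finsupp.add_apply]
        ext k
        simp [Finsupp.single_apply]
      map_smul' := fun r x => by
        rw [MonoidAlgebra.coeff_smul_apply]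
        simp } (by
      refine LinearMap.ext fun x => ?_
      rw [LinearMap.sum_apply]
      have : ∀ g : G, ((ρ g : Module.End (ZMod (p ^ K)) (MonoidAlgebra (ZMod (p ^ K)) G)) *
          ({ toFun := fun m => MonoidAlgebra.single 1 (m.coeff 1)
             map_add' := fun x y => by
              rw [MonoidAlgebra.coeff_add, Finsupp.add_apply]
              ext k
              simp [Finsupp.single_apply]
             map_smul' := fun r x => by
              rw [MonoidAlgebra.coeff_smul_apply]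
              simp } : Module.End (ZMod (p ^ K)) (MonoidAlgebra (ZMod (p ^ K)) G)) *
          (((ρ g)⁻¹ : (Module.End (ZMod (p ^ K)) (MonoidAlgebra (ZMod (p ^ K)) G))ˣ) :
            Module.End (ZMod (p ^ K)) (MonoidAlgebra (ZMod (p ^ K)) G))) x =
          MonoidAlgebra.single g (x.coeff g) := by
        intro g
        show (ρ g : Module.End (ZMod (p ^ K)) (MonoidAlgebra (ZMod (p ^ K)) G))
          (MonoidAlgebra.single 1 (((((ρ g)⁻¹ :
            (Module.End (ZMod (p ^ K)) (MonoidAlgebra (ZMod (p ^ K)) G))ˣ) :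
            Module.End (ZMod (p ^ K)) (MonoidAlgebra (ZMod (p ^ K)) G)) x).coeff 1)) = _
        rw [hρ, hρinv, hcoeff, MonoidAlgebra.single_mul_single]
        simp
      simp only [this]
      exact hsum1 x) q m e hqm a hq hpm hcard he1 he0 y0⁻¹ (by rw [inv_pow, hy0, inv_one])
  have hNε : Commute N ε := by
    rw [hNd]
    exact Commute.sum_left _ _ _ fun g _ => hρε g
  obtain ⟨c, hcd⟩ : ∃ c, c = MonoidAlgebra.lift (ZMod (p ^ K)) (ZMod (p ^ K)) G
    (1 : G →* ZMod (p ^ K)) (ε 1) := ⟨_, rfl⟩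
  have hN1 : N 1 = s := by rw [hN, map_one, one_smul]
  have hεs : ε s = c • s := by
    rw [← hN1, ← Module.End.mul_apply, ← hNε.eq, Module.End.mul_apply, hN, ← hcd, hN1]
  have hcc : c * c = c := by
    have h1 : ε (ε s) = ε s := by rw [← Module.End.mul_apply, hεε]
    rw [hεs, map_smul, hεs, smul_smul] at h1
    have h2 := congrArg (fun z : MonoidAlgebra (ZMod (p ^ K)) G => z.coeff 1) h1
    simp only [MonoidAlgebra.coeff_smul_apply, hs1, smul_eq_mul, mul_one] at h2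
    exact h2
  refine ⟨c, hcc, ?_, ?_⟩
  · intro h
    rw [hcd, hε0 (by rwa [inv_pow, Ne, inv_eq_one]), LinearMap.zero_apply, map_zero]
  have htr' := @htr (Classical.decPred _)
  -- right side
  have hR : ∑ g : G, LinearMap.trace (ZMod (p ^ K)) (MonoidAlgebra (ZMod (p ^ K)) G)
      ((ρ g : Module.End (ZMod (p ^ K)) (MonoidAlgebra (ZMod (p ^ K)) G)) *
        (V : Module.End (ZMod (p ^ K)) (MonoidAlgebra (ZMod (p ^ K)) G)) * ε) =
      (Fintype.card G : ZMod (p ^ K)) * c := by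
    rw [← map_sum, ← Finset.sum_mul, ← Finset.sum_mul, ← hNd]
    have h1 : N * (V : Module.End (ZMod (p ^ K)) (MonoidAlgebra (ZMod (p ^ K)) G)) * ε = c • N := by
      refine LinearMap.ext fun x => ?_
      have h2 : (N * (V : Module.End (ZMod (p ^ K)) (MonoidAlgebra (ZMod (p ^ K)) G)) * ε) x =
          N (ε x * v) := by
        rw [hV]; rfl
      rw [h2, hN, map_mul, haug, mul_one, ← hN, ← Module.End.mul_apply, hNε.eq, Module.End.mul_apply,
        hN, map_smul, hεs, LinearMap.smul_apply, hN, smul_smul, smul_smul, mul_comm]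
    rw [h1, map_smul, smul_eq_mul, mul_comm]
    congr 1
    have h3 : ∀ g : G, LinearMap.trace (ZMod (p ^ K)) (MonoidAlgebra (ZMod (p ^ K)) G)
      (ρ g : Module.End (ZMod (p ^ K)) (MonoidAlgebra (ZMod (p ^ K)) G)) =
        ∑ k : G, (1 : MonoidAlgebra (ZMod (p ^ K)) G).coeff (k⁻¹ * g⁻¹ * k) := by
      intro g
      rw [← trace_formula g⁻¹ (1 : MonoidAlgebra (ZMod (p ^ K)) G)]
      congr 1
      refine LinearMap.ext fun x => ?_
      rw [hρ]
      show _ = MonoidAlgebra.single g⁻¹⁻¹ 1 * (x * 1)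
      rw [inv_inv, mul_one]
    rw [hNd, map_sum]
    simp only [h3]
    rw [Finset.sum_comm]
    have h4 : ∀ k : G, ∑ g : G, (1 : MonoidAlgebra (ZMod (p ^ K)) G).coeff (k⁻¹ * g⁻¹ * k) = 1 := by
      intro k
      rw [Finset.sum_eq_single 1]
      · simp [MonoidAlgebra.one_def]
      · intro g _ hg
        rw [MonoidAlgebra.one_def, MonoidAlgebra.coeff_single, Finsupp.single_apply, if_neg]
        intro h
        apply hg
        have h5 : k⁻¹ * g⁻¹ * k = 1 := h.symm
        have h6 : g⁻¹ = 1 := by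
          calc g⁻¹ = k * (k⁻¹ * g⁻¹ * k) * k⁻¹ := by group
            _ = 1 := by rw [h5]; group
        exact inv_eq_one.1 h6
      · intro h; exact absurd (Finset.mem_univ _) h
    simp only [h4]
    simp
  rw [hR] at htr'
  rw [← htr']
  have hterm : ∀ g : G, LinearMap.trace (ZMod (p ^ K)) (MonoidAlgebra (ZMod (p ^ K)) G)
      ((ρ g : Module.End (ZMod (p ^ K)) (MonoidAlgebra (ZMod (p ^ K)) G)) *
        (V : Module.End (ZMod (p ^ K)) (MonoidAlgebra (ZMod (p ^ K)) G))) =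
        ∑ k : G, v.coeff (k⁻¹ * g⁻¹ * k) := by
    intro g
    rw [← trace_formula g⁻¹ v]
    congr 1
    refine LinearMap.ext fun x => ?_
    rw [hV]
    show (ρ g : Module.End (ZMod (p ^ K)) (MonoidAlgebra (ZMod (p ^ K)) G)) (x * v) =
      MonoidAlgebra.single g⁻¹⁻¹ 1 * (x * v)
    rw [hρ, inv_inv]
  simp only [hterm]
  rw [Finset.sum_comm]
  have h2 : ∀ k : G, ∑ g ∈ Finset.univ.filter (fun g : G => IsConj y0⁻¹ (g ^ e)),
      v.coeff (k⁻¹ * g⁻¹ * k) =
      ∑ g ∈ Finset.univ.filter (fun g : G => IsConj y0 (g ^ e)), v.coeff g := by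
    intro k
    rw [Finset.sum_filter, Finset.sum_filter]
    refine Fintype.sum_equiv ((Equiv.inv G).trans (MulAut.conj k⁻¹).toEquiv) _ _ (fun g => ?_)
    have e2 : ((Equiv.inv G).trans (MulAut.conj k⁻¹).toEquiv) g = k⁻¹ * g⁻¹ * k := by
      simp
    rw [e2]
    have e3 : IsConj y0⁻¹ (g ^ e) ↔ IsConj y0 ((k⁻¹ * g⁻¹ * k) ^ e) := by
      have h3 : (k⁻¹ * g⁻¹ * k) ^ e = k⁻¹ * (g ^ e)⁻¹ * k := by
        have := conj_pow (i := e) (a := k⁻¹) (b := g⁻¹)
        rw [inv_inv, inv_pow] at this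
        exact this
      rw [h3, isConj_iff, isConj_iff]
      constructor
      · rintro ⟨d, hd⟩
        refine ⟨k⁻¹ * d, ?_⟩
        rw [← hd]; group
      · rintro ⟨d, hd⟩
        refine ⟨k * d, ?_⟩
        have h4 : (g ^ e)⁻¹ = k * (d * y0 * d⁻¹) * k⁻¹ := by rw [hd]; group
        have h5 : g ^ e = (k * (d * y0 * d⁻¹) * k⁻¹)⁻¹ := by rw [← h4, inv_inv]
        rw [h5]; group
    exact if_congr e3 rfl rfl
  symm
  have h7 : ∀ k ∈ (Finset.univ : Finset G), (∑ g ∈ @Finset.filter G (fun g : G => IsConj y0⁻¹ (g ^ e))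
      (Classical.decPred _) Finset.univ, v.coeff (k⁻¹ * g⁻¹ * k)) =
      ∑ g ∈ Finset.univ.filter (fun g : G => IsConj y0 (g ^ e)), v.coeff g := by
    intro k _
    rw [← h2 k]
    refine Finset.sum_congr ?_ fun _ _ => rfl
    ext g
    simp only [Finset.mem_filter]
  rw [Finset.sum_congr rfl h7, Finset.sum_const, Finset.card_univ, nsmul_eq_mul]

end Pool.Agent.H64
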