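import Mathlib
import Pool.Agent.H64.U3
import Pool.Graph.R_pool_sql_team_seeded_620a6dc7.Helper495_SP.J02
import Pool.Graph.R_pool_sql_team_seeded_620a6dc7.Helper495_SP.J03
set_option autoImplicit false
namespace Pool.Agent.H64
open Pool.Agent.Helper495_PQ
open Pool.Agent.Helper495_SP (berman_higman class_vanish)

theorem class_sum_int {p : ℕ} [Fact p.Prime] {G : Type} [Group G] [Fintype G]
    (u : MonoidAlgebra ℤ G)
    (haug : MonoidAlgebra.lift ℤ ℤ G (1 : G →* ℤ) u = 1)
    (hvp : u ^ p = 1)
    (q m e : ℕ) (hqm : Nat.Coprime q m) (a : ℕ) (hq : q = p ^ a) (hpm : Nat.Coprime p m)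
    (hcard : ∀ g : G, g ^ (q * m) = 1)
    (he1 : e ≡ 1 [MOD q]) (he0 : e ≡ 0 [MOD m]) (y0 : G) (hy0 : y0 ^ q = 1)
    [DecidablePred fun g : G => IsConj y0 (g ^ e)] (S : ℤ)
    (hS : S = ∑ g ∈ Finset.univ.filter (fun g : G => IsConj y0 (g ^ e)), u.coeff g) :
    (S = 0 ∨ S = 1) ∧ (y0 ^ p ≠ 1 → S = 0) := by
  classical
  have hp : p.Prime := Fact.out
  obtain ⟨K, hKd⟩ : ∃ K : ℕ, K = Fintype.card G * (S.natAbs + 1) := ⟨_, rfl⟩
  have hG : 0 < Fintype.card G := Fintype.card_pos
  have hK : 1 ≤ K := by
    rw [hKd]; exact Nat.mul_pos hG (Nat.succ_pos _)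
  have hKp : K < p ^ K := Nat.lt_pow_self hp.one_lt
  have hloc := pc1_local (p := p) K hK
  let f : ℤ →+* ZMod (p ^ K) := Int.castRingHom _
  let F : MonoidAlgebra ℤ G →+* MonoidAlgebra (ZMod (p ^ K)) G := MonoidAlgebra.mapRingHom G f
  have hcoef : ∀ (x : MonoidAlgebra ℤ G) (g : G), (F x).coeff g = f (x.coeff g) := by
    intro x g
    simp [F]
  obtain ⟨c, hcc, hc0, hc⟩ := class_sum_mod K hK (F u) (by
        have h2 : ∀ x : MonoidAlgebra ℤ G,
            MonoidAlgebra.lift (ZMod (p ^ K)) (ZMod (p ^ K)) G (1 : G →* ZMod (p ^ K)) (F x) =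
            f (MonoidAlgebra.lift ℤ ℤ G (1 : G →* ℤ) x) := by
          intro x
          rw [MonoidAlgebra.lift_apply, MonoidAlgebra.lift_apply, Finsupp.sum_fintype _ _ (by simp),
            Finsupp.sum_fintype _ _ (by simp), map_sum]
          refine Finset.sum_congr rfl fun g _ => ?_
          rw [hcoef]
          simp
        rw [h2, haug, map_one]) (by rw [← map_pow, hvp, map_one])
      q m e hqm a hq hpm hcard he1 he0 y0 hy0
  have hsum : (∑ g ∈ Finset.univ.filter (fun g : G => IsConj y0 (g ^ e)), (F u).coeff g) =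
      ((S : ℤ) : ZMod (p ^ K)) := by
    rw [hS, Int.cast_sum]
    refine Finset.sum_congr rfl fun g _ => ?_
    rw [hcoef]
    rfl
  rw [hsum] at hc
  have hfin : ∀ δ : ℤ, (δ = 0 ∨ δ = 1) → c = ((δ : ℤ) : ZMod (p ^ K)) → S = δ := by
    intro δ hδ hcδ
    rw [hcδ] at hc
    have h1 : ((Fintype.card G * (S - δ) : ℤ) : ZMod (p ^ K)) = 0 := by
      push_cast
      rw [mul_sub, hc, sub_self]
    rw [ZMod.intCast_zmod_eq_zero_iff_dvd] at h1
    have h2 : |(Fintype.card G * (S - δ) : ℤ)| < ((p ^ K : ℕ) : ℤ) := by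
      have h3 : |S - δ| ≤ (S.natAbs : ℤ) + 1 := by
        rw [abs_le]
        rcases hδ with rfl | rfl <;> constructor <;> omega
      have h4 : |(Fintype.card G * (S - δ) : ℤ)| ≤ (K : ℤ) := by
        rw [abs_mul, hKd]
        push_cast
        rw [Int.natCast_natAbs] at h3
        have h5 : |((Fintype.card G : ℕ) : ℤ)| = (Fintype.card G : ℤ) := by simp
        rw [h5]
        exact mul_le_mul_of_nonneg_left h3 (by positivity)
      have h6 : (K : ℤ) < ((p ^ K : ℕ) : ℤ) := by exact_mod_cast hKp
      exact lt_of_le_of_lt h4 h6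
    have h3 := Int.eq_zero_of_abs_lt_dvd h1 h2
    rcases mul_eq_zero.1 h3 with h4 | h4
    · exfalso
      have : (Fintype.card G : ℤ) ≠ 0 := by exact_mod_cast hG.ne'
      exact this h4
    · omega
  constructor
  · rcases IsLocalRing.isUnit_or_isUnit_one_sub_self c with h | h
    · right
      apply hfin 1 (Or.inr rfl)
      rw [Int.cast_one]
      exact h.mul_left_cancel (by rw [hcc, mul_one])
    · left
      apply hfin 0 (Or.inl rfl)
      rw [Int.cast_zero]
      have h1 : (1 - c) * c = 0 := by rw [sub_mul, one_mul, hcc, sub_self]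
      exact h.mul_right_eq_zero.1 h1
  · intro h
    apply hfin 0 (Or.inl rfl)
    rw [Int.cast_zero]
    exact hc0 h

open Classical in
/-- A normalised unit of prime order has the same partial augmentations as an element of the group. -/
theorem prime_order {G : Type} [Group G] [Fintype G] (p : ℕ) (hp : p.Prime)
    (u : (MonoidAlgebra ℤ G)ˣ)
    (haug : MonoidAlgebra.lift ℤ ℤ G (1 : G →* ℤ) (u : MonoidAlgebra ℤ G) = 1)
    (hu : orderOf u = p) :
    ∃ x : G, orderOf x = p ∧ ∀ g : G,
      ∑ h ∈ Finset.univ.filter (fun h : G => IsConj g h), (u : MonoidAlgebra ℤ G).coeff h =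
        if IsConj x g then 1 else 0 := by
  have : Fact p.Prime := ⟨hp⟩
  have hup : (u : MonoidAlgebra ℤ G) ^ p = 1 := by
    rw [← Units.val_pow_eq_pow_val, ← hu, pow_orderOf_eq_one, Units.val_one]
  have hufin : IsOfFinOrder u := by
    rw [← orderOf_pos_iff, hu]; exact hp.pos
  have hu1 : u ≠ 1 := by
    rintro rfl
    rw [orderOf_one] at hu
    exact hp.one_lt.ne hu
  have hcard0 : Nat.card G ≠ 0 := Nat.card_pos.ne'
  obtain ⟨q, hq⟩ : ∃ q : ℕ, q = p ^ (Nat.card G).factorization p := ⟨_, rfl⟩
  obtain ⟨m, hm⟩ : ∃ m : ℕ, m = Nat.card G / p ^ (Nat.card G).factorization p := ⟨_, rfl⟩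
  have hqm0 : q * m = Nat.card G := by rw [hq, hm]; exact Nat.ordProj_mul_ordCompl_eq_self _ _
  have hpm : Nat.Coprime p m := by rw [hm]; exact Nat.coprime_ordCompl hp hcard0
  have hqm : Nat.Coprime q m := by rw [hq]; exact Nat.Coprime.pow_left _ hpm
  have hcard : ∀ g : G, g ^ (q * m) = 1 := fun g => by rw [hqm0]; exact pow_card_eq_one'
  obtain ⟨e, he1, he0⟩ := Nat.chineseRemainder hqm 1 0
  have hlev := fun g : G => h275_level (p := p) q m e hqm _ hq hpm hcard he1 he0 g
  -- the partial augmentations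
  obtain ⟨P, hP⟩ : ∃ P : G → ℤ, ∀ g, P g = ∑ h ∈ Finset.univ.filter (fun h : G => IsConj g h),
      (u : MonoidAlgebra ℤ G).coeff h := ⟨_, fun _ => rfl⟩
  have hPconj : ∀ g h, IsConj g h → P g = P h := by
    intro g h hgh
    rw [hP, hP]
    refine Finset.sum_congr ?_ fun _ _ => rfl
    ext k
    simp only [Finset.mem_filter, Finset.mem_univ, true_and]
    exact ⟨fun h1 => hgh.symm.trans h1, fun h1 => hgh.trans h1⟩
  -- vanishing away from `p`-elements
  have hordconj : ∀ g h : G, IsConj g h → orderOf g = orderOf h := by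
    intro g h hgh
    obtain ⟨d, hd⟩ := isConj_iff.1 hgh
    have := (MulAut.conj d).orderOf_eq g
    rw [MulAut.conj_apply, hd] at this
    exact this.symm
  have hvan : ∀ g : G, (∃ r : ℕ, r.Prime ∧ r ≠ p ∧ r ∣ orderOf g) → P g = 0 := by
    rintro g ⟨r, hr, hrp, hrg⟩
    have h1 := class_vanish u hufin r hr (by
        rw [hu]; intro h; exact hrp ((Nat.prime_dvd_prime_iff_eq hr hp).1 h))
      (fun h => if IsConj g h then 1 else 0) (by
        intro a b
        have : IsConj g (a * b) ↔ IsConj g (b * a) := by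
          have h2 : IsConj (a * b) (b * a) := isConj_iff.2 ⟨a⁻¹, by group⟩
          exact ⟨fun h => h.trans h2, fun h => h.trans h2.symm⟩
        simp only [this]) (by
        intro h hh
        have : IsConj g h := by
          by_contra hcon
          exact hh (if_neg hcon)
        rw [← hordconj g h this]
        exact hrg)
    rw [hP, Finset.sum_filter]
    refine Eq.trans (Finset.sum_congr rfl fun h _ => ?_) h1
    show _ = (u : MonoidAlgebra ℤ G).coeff h * (if IsConj g h then 1 else 0)
    split_ifs <;> simp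
  have hclsplit : ∀ T : Finset G, (∀ g ∈ T, ∀ h, IsConj g h → h ∈ T) → ∀ g ∈ T,
      ∑ g ∈ T, (u : MonoidAlgebra ℤ G).coeff g =
        P g + ∑ h ∈ T.filter (fun h => ¬ IsConj g h), (u : MonoidAlgebra ℤ G).coeff h := by
    intro T hcl g hg
    rw [← Finset.sum_filter_add_sum_filter_not T (fun h => IsConj g h)]
    have h5 : T.filter (fun h => IsConj g h) = Finset.univ.filter (fun h => IsConj g h) := by
      ext h
      simp only [Finset.mem_filter, Finset.mem_univ, true_and]
      exact ⟨fun h => h.2, fun h => ⟨hcl g hg _ h, h⟩⟩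
    rw [h5, ← hP]
  have hclcl : ∀ T : Finset G, (∀ g ∈ T, ∀ h, IsConj g h → h ∈ T) → ∀ g,
      ∀ a ∈ T.filter (fun h => ¬ IsConj g h), ∀ b, IsConj a b →
        b ∈ T.filter (fun h => ¬ IsConj g h) := by
    intro T hcl g a ha b hab
    rw [Finset.mem_filter] at ha ⊢
    exact ⟨hcl a ha.1 b hab, fun h => ha.2 (h.trans hab.symm)⟩
  have hclss : ∀ T : Finset G, ∀ g ∈ T, T.filter (fun h => ¬ IsConj g h) ⊂ T := by
    intro T g hg
    rw [Finset.ssubset_iff_of_subset (Finset.filter_subset _ _)]
    exact ⟨g, hg, fun h => (Finset.mem_filter.1 h).2 (IsConj.refl g)⟩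
  have hclnn : ∀ T : Finset G, (∀ g ∈ T, ∀ h, IsConj g h → h ∈ T) → (∀ g ∈ T, 0 ≤ P g) →
      0 ≤ ∑ g ∈ T, (u : MonoidAlgebra ℤ G).coeff g := by
    intro T
    induction T using Finset.strongInduction with
    | _ T ih =>
      intro hcl hz
      rcases T.eq_empty_or_nonempty with rfl | ⟨g, hg⟩
      · simp
      rw [hclsplit T hcl g hg]
      refine add_nonneg (hz g hg) (ih _ (hclss T g hg) (hclcl T hcl g) ?_)
      intro a ha
      exact hz a (Finset.mem_filter.1 ha).1
  have hclz : ∀ T : Finset G, (∀ g ∈ T, ∀ h, IsConj g h → h ∈ T) → (∀ g ∈ T, P g = 0) →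
      ∑ g ∈ T, (u : MonoidAlgebra ℤ G).coeff g = 0 := by
    intro T
    induction T using Finset.strongInduction with
    | _ T ih =>
      intro hcl hz
      rcases T.eq_empty_or_nonempty with rfl | ⟨g, hg⟩
      · simp
      rw [hclsplit T hcl g hg, hz g hg, zero_add]
      refine ih _ (hclss T g hg) (hclcl T hcl g) ?_
      intro a ha
      exact hz a (Finset.mem_filter.1 ha).1
  -- the sum over a section
  have hsec : ∀ x : G, x ^ q = 1 → ∑ g ∈ Finset.univ.filter (fun g : G => IsConj x (g ^ e)),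
      (u : MonoidAlgebra ℤ G).coeff g = P x := by
    intro x hxq
    have hxe : x ^ e = x := by
      conv_rhs => rw [← pow_one x]
      rw [pow_eq_pow_iff_modEq]
      exact he1.of_dvd (orderOf_dvd_of_pow_eq_one hxq)
    have h1 : (∑ g ∈ Finset.univ.filter (fun g : G => IsConj x (g ^ e)),
        (u : MonoidAlgebra ℤ G).coeff g) =
        ∑ g ∈ Finset.univ.filter (fun g : G => IsConj x (g ^ e)), if IsConj x g then
        (u : MonoidAlgebra ℤ G).coeff g else 0 := by
      -- sum over the elements of the section outside the class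
      have h3 : ∑ g ∈ Finset.univ.filter (fun g : G => IsConj x (g ^ e) ∧ ¬ IsConj x g),
          (u : MonoidAlgebra ℤ G).coeff g = 0 := by
        apply hclz
        · intro g hg h hgh
          simp only [Finset.mem_filter, Finset.mem_univ, true_and] at hg ⊢
          obtain ⟨d, hd⟩ := isConj_iff.1 hgh
          refine ⟨hg.1.trans (isConj_iff.2 ⟨d, ?_⟩), fun h => hg.2 (h.trans hgh.symm)⟩
          rw [← hd, conj_pow]
        · intro g hg
          simp only [Finset.mem_filter, Finset.mem_univ, true_and] at hg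
          apply hvan
          by_contra hcon
          apply hg.2
          -- then the order of `g` is a power of `p`
          obtain ⟨h5, h6, -⟩ := hlev g
          have h7 : (g ^ e)⁻¹ * g = 1 := by
            by_contra hne
            have h8 : orderOf ((g ^ e)⁻¹ * g) ≠ 1 := fun h => hne (orderOf_eq_one_iff.1 h)
            obtain ⟨r, hr, hrd⟩ := Nat.exists_prime_and_dvd h8
            apply hcon
            refine ⟨r, hr, ?_, ?_⟩
            · rintro rfl
              have : r ∣ m := hrd.trans (orderOf_dvd_of_pow_eq_one h6)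
              exact hr.one_lt.ne' (Nat.dvd_one.1 (hpm ▸ Nat.dvd_gcd dvd_rfl this))
            · refine hrd.trans ?_
              apply orderOf_dvd_of_pow_eq_one
              have hc : Commute (g ^ e)⁻¹ g := ((Commute.refl g).pow_left e).inv_left
              rw [hc.mul_pow, inv_pow, ← pow_mul, mul_comm e, pow_mul, pow_orderOf_eq_one, one_pow,
                inv_one, one_mul]
          have h9 : g = g ^ e := by
            calc g = g ^ e * ((g ^ e)⁻¹ * g) := by group
              _ = g ^ e := by rw [h7, mul_one]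
          rw [h9]
          exact hg.1
      rw [← Finset.sum_filter_add_sum_filter_not _ (fun g => IsConj x g), Finset.filter_filter,
        Finset.filter_filter, h3, add_zero, ← Finset.sum_filter, Finset.filter_filter]
    rw [h1, ← Finset.sum_filter, Finset.filter_filter, hP]
    refine Finset.sum_congr ?_ fun _ _ => rfl
    ext g
    simp only [Finset.mem_filter, Finset.mem_univ, true_and]
    constructor
    · rintro ⟨-, h⟩; exact h
    · intro h
      refine ⟨?_, h⟩
      obtain ⟨d, hd⟩ := isConj_iff.1 h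
      refine isConj_iff.2 ⟨d, ?_⟩
      rw [← hd, conj_pow, hxe]
  have hval : ∀ x : G, x ^ q = 1 → (P x = 0 ∨ P x = 1) ∧ (x ^ p ≠ 1 → P x = 0) := by
    intro x hxq
    exact class_sum_int (u : MonoidAlgebra ℤ G) haug hup q m e hqm _ hq hpm hcard he1 he0 x hxq (P x)
      (hsec x hxq).symm
  have hP1 : P 1 = 0 := by
    have h1 := berman_higman u haug hufin hu1
    rw [hP]
    have h2 : Finset.univ.filter (fun h : G => IsConj 1 h) = {1} := by
      ext h
      simp only [Finset.mem_filter, Finset.mem_univ, true_and, Finset.mem_singleton]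
      rw [isConj_comm, isConj_one_left]
    rw [h2, Finset.sum_singleton, h1]
  -- each partial augmentation is `0` or `1`
  have hval' : ∀ g : G, (P g = 0 ∨ P g = 1) ∧ (orderOf g ≠ p → P g = 0) := by
    intro g
    by_cases hr : ∃ r : ℕ, r.Prime ∧ r ≠ p ∧ r ∣ orderOf g
    · exact ⟨Or.inl (hvan g hr), fun _ => hvan g hr⟩
    · push Not at hr
      have hgq : g ^ q = 1 := by
        have h0 : orderOf g ≠ 0 := (orderOf_pos g).ne'
        have h1 := Nat.eq_prime_pow_of_unique_prime_dvd (p := p) h0 (fun {d} hd hdg => by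
          by_contra hne
          exact hr d hd hne hdg)
        have h2 : orderOf g ∣ q * m := by rw [hqm0]; exact orderOf_dvd_natCard g
        rw [← orderOf_dvd_iff_pow_eq_one]
        rw [h1] at h2 ⊢
        exact (Nat.Coprime.pow_left _ hpm).dvd_of_dvd_mul_right h2
      refine ⟨(hval g hgq).1, fun h => ?_⟩
      by_cases hg1 : g = 1
      · rw [hg1, hP1]
      · apply (hval g hgq).2
        intro hgp
        exact h (orderOf_eq_prime hgp hg1)
  -- exactly one class
  have haugs : ∑ g : G, (u : MonoidAlgebra ℤ G).coeff g = 1 := by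
    rw [← haug, MonoidAlgebra.lift_apply, Finsupp.sum_fintype _ _ (by simp)]
    simp
  obtain ⟨x, hx⟩ : ∃ x, P x = 1 := by
    by_contra hcon
    push Not at hcon
    have h1 := hclz Finset.univ (fun _ _ _ _ => Finset.mem_univ _)
      (fun g _ => (hval' g).1.resolve_right (hcon g))
    rw [haugs] at h1
    exact one_ne_zero h1
  refine ⟨x, ?_, fun g => ?_⟩
  · by_contra hne
    rw [(hval' x).2 hne] at hx
    exact zero_ne_one hx
  · rw [← hP]
    split_ifs with h
    · rw [← hPconj x g h, hx]
    · have hnn : ∀ g, 0 ≤ P g := by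
        intro g
        rcases (hval' g).1 with h1 | h1 <;> rw [h1]
        exact zero_le_one
      have h1 := hclsplit Finset.univ (fun _ _ _ _ => Finset.mem_univ _) x (Finset.mem_univ _)
      rw [haugs, hx] at h1
      have h2 := hclsplit _ (hclcl Finset.univ (fun _ _ _ _ => Finset.mem_univ _) x) g
        (Finset.mem_filter.2 ⟨Finset.mem_univ _, h⟩)
      have h3 := hclnn _ (hclcl _ (hclcl Finset.univ (fun _ _ _ _ => Finset.mem_univ _) x) g)
        (fun a _ => hnn a)
      have h4 := hnn g
      omega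

end Pool.Agent.H64
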