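import Mathlib
import Pool.Agent.H64.N2
import Pool.Agent.H64.U4
import Pool.Graph.R_pool_sql_team_seeded_620a6dc7.Helper495_SP.J01
set_option autoImplicit false
namespace Pool.Agent.H64
open Pool.Agent.Helper495_PQ
open Pool.Agent.Helper495_SP (power_congr)

section cls
variable {G : Type*} [Group G] [Fintype G]

open Classical in
/-- `u` has the partial augmentations of the group element `x` -/
def PAug (u : MonoidAlgebra ℤ G) (x : G) : Prop :=
  ∀ g : G, ∑ h ∈ Finset.univ.filter (fun h : G => IsConj g h), u.coeff h =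
    if IsConj x g then 1 else 0

open Classical in
theorem PAug.sum {u : MonoidAlgebra ℤ G} {x : G} (h : PAug u x) {A : Type*} [CommRing A]
    (φ : G → A) (hφ : ∀ a b, IsConj a b → φ a = φ b) : ∑ g, (u.coeff g : A) * φ g = φ x := by
  have : Fintype (ConjClasses G) := Fintype.ofFinite _
  rw [← Finset.sum_fiberwise Finset.univ (fun g : G => ConjClasses.mk g)]
  rw [Finset.sum_eq_single (ConjClasses.mk x)]
  · have h1 : ∑ g ∈ Finset.univ.filter (fun g : G => ConjClasses.mk g = ConjClasses.mk x),
        (u.coeff g : A) * φ g =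
        ∑ g ∈ Finset.univ.filter (fun g : G => ConjClasses.mk g = ConjClasses.mk x),
        (u.coeff g : A) * φ x := by
      refine Finset.sum_congr rfl fun g hg => ?_
      rw [Finset.mem_filter, ConjClasses.mk_eq_mk_iff_isConj] at hg
      rw [hφ g x hg.2]
    rw [h1, ← Finset.sum_mul, ← Int.cast_sum]
    have h2 := h x
    rw [if_pos (IsConj.refl x)] at h2
    have h3 : ∑ g ∈ Finset.univ.filter (fun g : G => ConjClasses.mk g = ConjClasses.mk x),
        u.coeff g = 1 := by
      rw [← h2]
      refine Finset.sum_congr ?_ fun _ _ => rfl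
      ext g
      simp only [Finset.mem_filter, Finset.mem_univ, true_and]
      rw [ConjClasses.mk_eq_mk_iff_isConj, isConj_comm]
    rw [h3, Int.cast_one, one_mul]
  · intro C _ hC
    induction C using Quotient.inductionOn with
    | h y =>
    have h1 : ∑ g ∈ Finset.univ.filter (fun g : G => ConjClasses.mk g = ConjClasses.mk y),
        (u.coeff g : A) * φ g =
        ∑ g ∈ Finset.univ.filter (fun g : G => ConjClasses.mk g = ConjClasses.mk y),
        (u.coeff g : A) * φ y := by
      refine Finset.sum_congr rfl fun g hg => ?_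
      rw [Finset.mem_filter, ConjClasses.mk_eq_mk_iff_isConj] at hg
      rw [hφ g y hg.2]
    show ∑ g ∈ Finset.univ.filter (fun g : G => ConjClasses.mk g = ConjClasses.mk y),
        (u.coeff g : A) * φ g = 0
    rw [h1, ← Finset.sum_mul, ← Int.cast_sum]
    have h2 := h y
    have hC' : ¬ IsConj x y := by
      intro hxy
      apply hC
      show ConjClasses.mk y = ConjClasses.mk x
      rw [ConjClasses.mk_eq_mk_iff_isConj]
      exact hxy.symm
    rw [if_neg hC'] at h2
    have h3 : ∑ g ∈ Finset.univ.filter (fun g : G => ConjClasses.mk g = ConjClasses.mk y),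
        u.coeff g = 0 := by
      rw [← h2]
      refine Finset.sum_congr ?_ fun _ _ => rfl
      ext g
      simp only [Finset.mem_filter, Finset.mem_univ, true_and]
      rw [ConjClasses.mk_eq_mk_iff_isConj, isConj_comm]
    rw [h3, Int.cast_zero, zero_mul]
  · intro h
    exact absurd (Finset.mem_univ _) h

theorem PAug.congr {u : MonoidAlgebra ℤ G} {x y : G} (h : PAug u x) (hxy : IsConj x y) :
    PAug u y := by
  classical
  intro g
  rw [h g]
  have : IsConj x g ↔ IsConj y g := ⟨fun h => hxy.symm.trans h, fun h => hxy.trans h⟩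
  exact if_congr this rfl rfl

theorem PAug.one : PAug (1 : MonoidAlgebra ℤ G) 1 := by
  classical
  intro g
  rw [MonoidAlgebra.one_def]
  split_ifs with h
  · rw [isConj_one_right] at h
    subst h
    rw [Finset.sum_eq_single 1]
    · simp
    · intro b _ hb
      rw [MonoidAlgebra.coeff_single, Finsupp.single_eq_of_ne hb]
    · intro h
      exact absurd (Finset.mem_filter.2 ⟨Finset.mem_univ _, IsConj.refl 1⟩) h
  · refine Finset.sum_eq_zero fun k hk => ?_
    rw [Finset.mem_filter] at hk
    rw [MonoidAlgebra.coeff_single, Finsupp.single_eq_of_ne]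
    rintro rfl
    exact h hk.2.symm
end cls

section ppow
variable {G : Type} [Group G] [Fintype G]

/-- powers of a unit of prime order -/
theorem PAug.pow (p : ℕ) (hp : p.Prime) (j : ℕ) : ∀ (u : (MonoidAlgebra ℤ G)ˣ)
    (_ : MonoidAlgebra.lift ℤ ℤ G (1 : G →* ℤ) (u : MonoidAlgebra ℤ G) = 1)
    (_ : orderOf u = p) (x : G) (_ : orderOf x = p) (_ : PAug (u : MonoidAlgebra ℤ G) x),
    ¬ p ∣ j → PAug ((u ^ j : (MonoidAlgebra ℤ G)ˣ) : MonoidAlgebra ℤ G) (x ^ j) := by
  classical
  induction j using Nat.strong_induction_on with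
  | _ j ih =>
    intro u haug hu x hx h hpj
    by_cases hj1 : j = 1
    · subst hj1
      rw [pow_one, pow_one]; exact h
    obtain ⟨r, hr, k, rfl⟩ := Nat.exists_prime_and_dvd hj1
    have hrp : r ≠ p := by
      rintro rfl
      exact hpj (Dvd.intro _ rfl)
    have hpk : ¬ p ∣ k := fun h => hpj (h.mul_left r)
    have hk0 : 0 < k := by
      rcases Nat.eq_zero_or_pos k with rfl | h
      · exact absurd (dvd_zero p) hpk
      · exact h
    have hcop : Nat.Coprime p r := (Nat.coprime_primes hp hr).2 hrp.symm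
    have hur : orderOf (u ^ r) = p := by
      rw [Nat.Coprime.orderOf_pow (by rw [hu]; exact hcop), hu]
    have hxr : orderOf (x ^ r) = p := by
      rw [Nat.Coprime.orderOf_pow (by rw [hx]; exact hcop), hx]
    have haugr : MonoidAlgebra.lift ℤ ℤ G (1 : G →* ℤ)
        ((u ^ r : (MonoidAlgebra ℤ G)ˣ) : MonoidAlgebra ℤ G) = 1 := by
      rw [Units.val_pow_eq_pow_val, map_pow, haug, one_pow]
    have hPr : PAug ((u ^ r : (MonoidAlgebra ℤ G)ˣ) : MonoidAlgebra ℤ G) (x ^ r) := by
      obtain ⟨y, hy, hPy⟩ := prime_order p hp (u ^ r) haugr hur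
      have hPy' : PAug ((u ^ r : (MonoidAlgebra ℤ G)ˣ) : MonoidAlgebra ℤ G) y := by
        intro g
        convert hPy g
      refine hPy'.congr ?_
      obtain ⟨φ, hφ⟩ : ∃ φ : G → ℤ, ∀ g, φ g = if IsConj y g then 1 else 0 := ⟨_, fun _ => rfl⟩
      have hφc : ∀ a b, IsConj a b → φ a = φ b := by
        intro a b hab
        rw [hφ, hφ]
        exact if_congr ⟨fun h => h.trans hab, fun h => h.trans hab.symm⟩ rfl rfl
      have h1 := power_congr r hr φ (fun a b => hφc _ _ (isConj_iff.2 ⟨a⁻¹, by group⟩))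
        (u : MonoidAlgebra ℤ G)
      have h2 := hPy'.sum φ hφc
      have h3 := h.sum (fun g => φ (g ^ r)) (fun a b hab => hφc _ _ (by
        obtain ⟨d, hd⟩ := isConj_iff.1 hab
        exact isConj_iff.2 ⟨d, by rw [← hd, conj_pow]⟩))
      simp only [Int.cast_id] at h2 h3
      rw [Units.val_pow_eq_pow_val] at h2
      rw [h2, h3] at h1
      rw [hφ, hφ, if_pos (IsConj.refl y)] at h1
      by_contra hne
      rw [if_neg hne, sub_zero] at h1
      have h4 : r ∣ 1 := by exact_mod_cast h1
      exact hr.one_lt.ne' (Nat.dvd_one.1 h4)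
    have hlt : k < r * k := by
      have := hr.two_le
      nlinarith
    have h5 := ih k hlt (u ^ r) haugr hur (x ^ r) hxr hPr hpk
    rw [← pow_mul, ← pow_mul] at h5
    exact h5

end ppow

theorem one_add_pow_congr {d : ℕ} (c k : ℕ) (hc : c.Prime) (A : Matrix (Fin d) (Fin d) ℤ)
    (h : MC c A 1) : ∃ D : Matrix (Fin d) (Fin d) ℤ, A ^ c ^ k = 1 + ((c : ℤ) ^ (k + 1)) • D := by
  obtain ⟨C, hC⟩ := h
  have h1 : ((c : ℕ) : Polynomial ℤ) ∣ (1 + (c : Polynomial ℤ) * Polynomial.X) - 1 :=
    ⟨Polynomial.X, by ring⟩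
  obtain ⟨Q, hQ⟩ := dvd_sub_pow_of_dvd_sub h1 k
  have h2 := congrArg (Polynomial.aeval C) hQ
  simp only [map_sub, map_pow, map_add, map_mul, map_one, map_natCast, Polynomial.aeval_X,
    one_pow] at h2
  refine ⟨Polynomial.aeval C Q, ?_⟩
  have h3 : A = 1 + (c : Matrix (Fin d) (Fin d) ℤ) * C := by
    rw [hC]
    congr 1
    rw [← nsmul_eq_mul, ← natCast_zsmul]
  rw [h3, sub_eq_iff_eq_add.1 h2, add_comm]
  congr 1
  rw [← Nat.cast_pow, ← nsmul_eq_mul, ← natCast_zsmul]
  push_cast
  rfl

/-- an idempotent matrix over `ℤ / c ^ K` with trace zero is zero when `c ^ K` is large -/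
theorem idem_trace_zero (c K d : ℕ) [hc : Fact c.Prime] (hK : 1 ≤ K) (hd : d < c ^ K)
    (P : Matrix (Fin d) (Fin d) (ZMod (c ^ K))) (hP : P * P = P) (htr : P.trace = 0) : P = 0 := by
  have hloc := pc1_local (p := c) K hK
  have : NeZero (c ^ K) := ⟨(pow_pos hc.out.pos K).ne'⟩
  let f : Module.End (ZMod (c ^ K)) (Fin d → ZMod (c ^ K)) := Matrix.toLin' P
  have hff : f * f = f := by
    show Matrix.toLin' P * Matrix.toLin' P = Matrix.toLin' P
    rw [Module.End.mul_eq_comp, ← Matrix.toLin'_mul, hP]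
  have hproj : LinearMap.IsProj (LinearMap.range f) f := by
    refine ⟨fun x => ⟨x, rfl⟩, ?_⟩
    rintro _ ⟨y, rfl⟩
    rw [← Module.End.mul_apply, hff]
  have hff1 : (1 - f) * (1 - f) = 1 - f := by
    rw [mul_sub, sub_mul, sub_mul, one_mul, mul_one, one_mul, hff]; abel
  have split : ∀ g : Module.End (ZMod (c ^ K)) (Fin d → ZMod (c ^ K)), g * g = g →
      Module.Free (ZMod (c ^ K)) (LinearMap.range g) ∧
      Module.Finite (ZMod (c ^ K)) (LinearMap.range g) := by
    intro g hg
    have h1 : Module.Projective (ZMod (c ^ K)) (LinearMap.range g) := by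
      refine Module.Projective.of_split (LinearMap.range g).subtype g.rangeRestrict ?_
      ext ⟨_, y, rfl⟩ i
      show g (g y) i = g y i
      rw [← Module.End.mul_apply, hg]
    have h2 : Module.Finite (ZMod (c ^ K)) (LinearMap.range g) := Module.Finite.range g
    exact ⟨Module.free_of_flat_of_isLocalRing, h2⟩
  have hker : LinearMap.ker f = LinearMap.range (1 - f) := by
    ext x
    rw [LinearMap.mem_ker, LinearMap.mem_range]
    constructor
    · intro h
      exact ⟨x, by rw [LinearMap.sub_apply, h, Module.End.one_apply, sub_zero]⟩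
    · rintro ⟨y, rfl⟩
      rw [LinearMap.sub_apply, Module.End.one_apply, map_sub, ← Module.End.mul_apply, hff, sub_self]
  obtain ⟨h1, h2⟩ := split f hff
  obtain ⟨h3, h4⟩ := split (1 - f) hff1
  rw [← hker] at h3 h4
  have h5 := hproj.trace
  have h6 : LinearMap.trace (ZMod (c ^ K)) (Fin d → ZMod (c ^ K)) f = 0 := by
    rw [← htr]
    exact Matrix.trace_toLin'_eq P
  rw [h6] at h5
  have h7 : Module.finrank (ZMod (c ^ K)) (LinearMap.range f) ≤ d := by
    have := LinearMap.finrank_le_finrank_of_injective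
      (f := (LinearMap.range f).subtype) (Submodule.subtype_injective _)
    rwa [Module.finrank_fin_fun] at this
  have h8 : Module.finrank (ZMod (c ^ K)) (LinearMap.range f) = 0 := by
    have h9 := (ZMod.natCast_eq_zero_iff _ _).1 h5.symm
    exact Nat.eq_zero_of_dvd_of_lt h9 (lt_of_le_of_lt h7 hd)
  have h10 : ∀ y, f y = 0 := by
    intro y
    let b := Module.finBasis (ZMod (c ^ K)) (LinearMap.range f)
    have h11 := b.sum_repr ⟨f y, y, rfl⟩
    have : IsEmpty (Fin (Module.finrank (ZMod (c ^ K)) (LinearMap.range f))) := by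
      rw [h8]; infer_instance
    rw [Finset.univ_eq_empty, Finset.sum_empty] at h11
    exact congrArg Subtype.val h11.symm
  have h12 : f = 0 := LinearMap.ext h10
  exact (Matrix.toLin'.map_eq_zero_iff).1 h12

end Pool.Agent.H64
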