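import Mathlib
import Pool.Agent.H64.N3
set_option autoImplicit false
namespace Pool.Agent.H64
open Pool.Agent.Helper495_PQ

theorem MC_iff {d : ℕ} (c : ℕ) (A B : Matrix (Fin d) (Fin d) ℤ) :
    MC c A B ↔ A.map (Int.castRingHom (ZMod c)) = B.map (Int.castRingHom (ZMod c)) := by
  constructor
  · rintro ⟨C, hC⟩
    ext i j
    rw [hC]
    simp only [Matrix.map_apply, Matrix.add_apply, Matrix.smul_apply, smul_eq_mul, map_add, map_mul,
      map_natCast, ZMod.natCast_self, zero_mul, add_zero]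
  · intro h
    have h1 : ∀ i j, (c : ℤ) ∣ A i j - B i j := by
      intro i j
      have h2 := congrFun (congrFun h i) j
      simp only [Matrix.map_apply, eq_intCast] at h2
      rw [← ZMod.intCast_zmod_eq_zero_iff_dvd, Int.cast_sub, h2, sub_self]
    choose C hC using h1
    refine ⟨Matrix.of C, ?_⟩
    ext i j
    simp only [Matrix.add_apply, Matrix.smul_apply, Matrix.of_apply, smul_eq_mul]
    rw [← hC]
    ring

section
variable {G : Type} [Group G] [Fintype G]

/-- A unit of prime order which acts trivially on a representation in another characteristic comes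
from an element of the group acting trivially. -/
theorem fix_char (c p d : ℕ) (hc : c.Prime) (hp : p.Prime) (hcp : c ≠ p)
    (ρ : G →* Matrix (Fin d) (Fin d) (ZMod c))
    (u : (MonoidAlgebra ℤ G)ˣ)
    (haug : MonoidAlgebra.lift ℤ ℤ G (1 : G →* ℤ) (u : MonoidAlgebra ℤ G) = 1)
    (hu : orderOf u = p) (x : G) (hx : orderOf x = p) (hux : PAug (u : MonoidAlgebra ℤ G) x)
    (h1 : MonoidAlgebra.lift ℤ (Matrix (Fin d) (Fin d) (ZMod c)) G ρ (u : MonoidAlgebra ℤ G) = 1) :
    ρ x = 1 := by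
  classical
  have : Fact c.Prime := ⟨hc⟩
  have : NeZero c := ⟨hc.ne_zero⟩
  -- numbers
  have hcard0 : Nat.card G ≠ 0 := Nat.card_pos.ne'
  obtain ⟨a, ha⟩ : ∃ a, a = (Nat.card G).factorization c := ⟨_, rfl⟩
  obtain ⟨m, hm⟩ : ∃ m : ℕ, m = Nat.card G / c ^ (Nat.card G).factorization c := ⟨_, rfl⟩
  have hqm0 : c ^ a * m = Nat.card G := by rw [ha, hm]; exact Nat.ordProj_mul_ordCompl_eq_self _ _
  have hcm : Nat.Coprime c m := by rw [hm]; exact Nat.coprime_ordCompl hc hcard0
  have hm0 : 0 < m := by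
    rcases Nat.eq_zero_or_pos m with h | h
    · rw [h, mul_zero] at hqm0; exact absurd hqm0.symm hcard0
    · exact h
  have hφ : 0 < m.totient := Nat.totient_pos.2 hm0
  obtain ⟨M, hM⟩ : ∃ M, M = m.totient * (a + d + 1) := ⟨_, rfl⟩
  have hMge : a + d + 1 ≤ M := by
    rw [hM]; exact Nat.le_mul_of_pos_left _ hφ
  have hcM : c ^ M ≡ 1 [MOD m] := by
    rw [hM, pow_mul]
    have h2 := (Nat.ModEq.pow_totient hcm).pow (a + d + 1)
    rwa [one_pow] at h2
  have hH : ∀ h : G, h ^ c ^ (a + M) = h ^ c ^ a := by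
    intro h
    rw [pow_eq_pow_iff_modEq]
    have h2 : orderOf h ∣ c ^ a * m := by rw [hqm0]; exact orderOf_dvd_natCard h
    refine Nat.ModEq.of_dvd h2 ?_
    have h3 : c ^ a * c ^ M ≡ c ^ a * 1 [MOD c ^ a * m] := hcM.mul_left' (c ^ a)
    rw [mul_one, ← pow_add] at h3
    exact h3
  have hpm : p ∣ m := by
    have h2 : p ∣ c ^ a * m := by rw [hqm0, ← hx]; exact orderOf_dvd_natCard x
    exact (Nat.Coprime.pow_right a ((Nat.coprime_primes hp hc).2 hcp.symm)).dvd_of_dvd_mul_left h2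
  have hcMp : c ^ M ≡ 1 [MOD p] := hcM.of_dvd hpm
  have huM : ∀ j : ℕ, (((u ^ j : (MonoidAlgebra ℤ G)ˣ) : MonoidAlgebra ℤ G)) ^ c ^ M =
      ((u ^ j : (MonoidAlgebra ℤ G)ˣ) : MonoidAlgebra ℤ G) := by
    intro j
    have h2 : u ^ c ^ M = u := by
      conv_rhs => rw [← pow_one u]
      rw [pow_eq_pow_iff_modEq, hu]
      exact hcMp
    rw [← Units.val_pow_eq_pow_val, ← pow_mul, mul_comm, pow_mul, h2]
  have hxM : x ^ c ^ M = x := by
    conv_rhs => rw [← pow_one x]
    rw [pow_eq_pow_iff_modEq, hx]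
    exact hcMp
  -- lifts
  obtain ⟨R, hR⟩ : ∃ R : G → Matrix (Fin d) (Fin d) ℤ,
      ∀ g, (R g).map (Int.castRingHom (ZMod c)) = ρ g := by
    refine ⟨fun g => (ρ g).map fun z => (z.val : ℤ), fun g => ?_⟩
    ext i j
    simp
  have hmm : ∀ A B : Matrix (Fin d) (Fin d) ℤ, (A * B).map (Int.castRingHom (ZMod c)) =
      A.map (Int.castRingHom (ZMod c)) * B.map (Int.castRingHom (ZMod c)) := fun A B =>
    Matrix.map_mul
  have hm1 : (1 : Matrix (Fin d) (Fin d) ℤ).map (Int.castRingHom (ZMod c)) = 1 :=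
    Matrix.map_one _ (map_zero _) (map_one _)
  have hR1 : MC c (R 1) 1 := by
    rw [MC_iff, hR, map_one, hm1]
  have hRm : ∀ g h, MC c (R (g * h)) (R g * R h) := by
    intro g h
    rw [MC_iff, hR, map_mul, hmm, hR, hR]
  have hpowR := MC_pow_R c R hR1 hRm
  -- the traces of the powers of `x`
  have htr : ∀ j : ℕ, ((c : ℤ) ^ (M + 1 - a)) ∣ (R (x ^ j) ^ c ^ M).trace - (d : ℤ) := by
    intro j
    have hdone : ∀ A : Matrix (Fin d) (Fin d) ℤ, MC c A 1 →
        ((c : ℤ) ^ (M + 1 - a)) ∣ (A ^ c ^ M).trace - (d : ℤ) := by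
      intro A hA
      have h2 := hA.trace hc M
      rw [one_pow, Matrix.trace_one, Fintype.card_fin] at h2
      exact (pow_dvd_pow _ (Nat.sub_le _ _)).trans h2
    by_cases hpj : p ∣ j
    · have h2 : x ^ j = 1 := by
        rw [← orderOf_dvd_iff_pow_eq_one, hx]; exact hpj
      rw [h2]
      exact hdone _ hR1
    · have hP := PAug.pow p hp j u haug hu x hx hux hpj
      obtain ⟨w, hw⟩ : ∃ w : MonoidAlgebra ℤ G,
        w = ((u ^ j : (MonoidAlgebra ℤ G)ˣ) : MonoidAlgebra ℤ G) := ⟨_, rfl⟩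
      have h2 := main_formula c a M hc R hR1 hRm hH w
      have hwM : w ^ c ^ M = w := by rw [hw]; exact huM j
      rw [hwM] at h2
      -- the sum
      have h3 : ((c : ℤ) ^ (M + 1)) ∣ ∑ g, w.coeff g * (R g ^ c ^ M).trace -
          (R (x ^ j) ^ c ^ M).trace := by
        obtain ⟨ψ, hψ⟩ : ∃ ψ : G → ZMod (c ^ (M + 1)), ∀ g, ψ g = (((R g ^ c ^ M).trace : ℤ) :
          ZMod (c ^ (M + 1))) := ⟨_, fun _ => rfl⟩
        have hcast : ∀ a b : ℤ, ((c : ℤ) ^ (M + 1)) ∣ a - b →
            ((a : ℤ) : ZMod (c ^ (M + 1))) = b := by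
          intro a b h
          rw [← sub_eq_zero, ← Int.cast_sub, ZMod.intCast_zmod_eq_zero_iff_dvd]
          push_cast
          exact h
        have hψc : ∀ a b : G, IsConj a b → ψ a = ψ b := by
          intro a b hab
          obtain ⟨g, hg⟩ := isConj_iff.1 hab
          rw [hψ, hψ]
          have h4 : MC c (R b) (R g * (R a * R g⁻¹)) := by
            rw [← hg, mul_assoc]
            exact (hRm _ _).trans ((MC.refl c _).mul (hRm _ _))
          have h5 : MC c (R a) ((R a * R g⁻¹) * R g) := by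
            have h6 : a = (a * g⁻¹) * g := by group
            have h7 := (hRm (a * g⁻¹) g).trans ((hRm a g⁻¹).mul (MC.refl c (R g)))
            rwa [← h6] at h7
          rw [hcast _ _ (h4.trace hc M), hcast _ _ (h5.trace hc M)]
          congr 1
          have h8 : ∀ (A B : Matrix (Fin d) (Fin d) ℤ) (n : ℕ), 0 < n →
              ((A * B) ^ n).trace = ((B * A) ^ n).trace := by
            intro A B n hn
            obtain ⟨n', rfl⟩ : ∃ n', n = n' + 1 := ⟨n - 1, by omega⟩
            have h4 : (A * B) ^ (n' + 1) = A * (B * A) ^ n' * B := by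
              clear hn
              induction n' with
              | zero => simp
              | succ n' ih =>
                rw [pow_succ, ih, pow_succ (B * A)]
                simp only [mul_assoc]
            rw [h4, Matrix.trace_mul_comm, ← mul_assoc, pow_succ']
          exact h8 _ _ _ (pow_pos hc.pos _)
        have h4 := (hw ▸ hP : PAug w (x ^ j)).sum ψ hψc
        have h5 : (((∑ g, w.coeff g * (R g ^ c ^ M).trace - (R (x ^ j) ^ c ^ M).trace : ℤ)) :
            ZMod (c ^ (M + 1))) = 0 := by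
          push_cast
          simp only [← hψ]
          rw [h4, sub_self]
        rw [ZMod.intCast_zmod_eq_zero_iff_dvd] at h5
        push_cast at h5
        exact h5
      have h4 : MC c (∑ g, w.coeff g • R g) 1 := by
        rw [MC_iff, hm1]
        have h5 : (∑ g, w.coeff g • R g).map (Int.castRingHom (ZMod c)) =
            MonoidAlgebra.lift ℤ (Matrix (Fin d) (Fin d) (ZMod c)) G ρ w := by
          rw [MonoidAlgebra.lift_apply, Finsupp.sum_fintype _ _ (by simp)]
          have h6 : ∀ A : Matrix (Fin d) (Fin d) ℤ, A.map (Int.castRingHom (ZMod c)) =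
            (Int.castRingHom (ZMod c)).mapMatrix A := fun A => rfl
          rw [h6, map_sum]
          refine Finset.sum_congr rfl fun g _ => ?_
          rw [← hR g, map_zsmul, h6]
        rw [h5, hw, Units.val_pow_eq_pow_val, map_pow, h1, one_pow]
      have h5 := hdone _ h4
      have h6 := (pow_dvd_pow (c : ℤ) (Nat.sub_le (M + 1) a)).trans h3
      have h7 := dvd_sub (dvd_sub h5 h2) h6
      have h8 : ∀ a b c d : ℤ, a - b - (a - c) - (c - d) = d - b := by intros; ring
      rwa [h8] at h7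
  -- the matrix `X`
  obtain ⟨K, hK⟩ : ∃ K, K = M + 1 - a := ⟨_, rfl⟩
  have hK1 : 1 ≤ K := by omega
  have hKd : d < c ^ K := by
    have h2 : d < K := by omega
    exact h2.trans (Nat.lt_pow_self hc.one_lt)
  rw [← hK] at htr
  have : NeZero (c ^ K) := ⟨(pow_pos hc.pos K).ne'⟩
  let F : Matrix (Fin d) (Fin d) ℤ →+* Matrix (Fin d) (Fin d) (ZMod (c ^ K)) :=
    (Int.castRingHom (ZMod (c ^ K))).mapMatrix
  have hFtr : ∀ A : Matrix (Fin d) (Fin d) ℤ, (F A).trace = ((A.trace : ℤ) : ZMod (c ^ K)) := by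
    intro A
    rw [Matrix.trace, Matrix.trace, Int.cast_sum]
    rfl
  have hFz : ∀ A : Matrix (Fin d) (Fin d) ℤ, ∀ n, K ≤ n → F ((c : ℤ) ^ n • A) = 0 := by
    intro A n hn
    ext i j
    show ((((c : ℤ) ^ n • A) i j : ℤ) : ZMod (c ^ K)) = 0
    rw [Matrix.smul_apply, smul_eq_mul, ZMod.intCast_zmod_eq_zero_iff_dvd]
    push_cast
    exact (pow_dvd_pow _ hn).mul_right _
  obtain ⟨X, hX⟩ : ∃ X, X = F (R x ^ c ^ M) := ⟨_, rfl⟩
  have hXp : X ^ p = 1 := by
    have h2 : MC c (R x ^ p) 1 := by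
      have h3 := hpowR x p
      have h4 : x ^ p = 1 := by rw [← hx]; exact pow_orderOf_eq_one x
      rw [h4] at h3
      exact h3.symm.trans hR1
    obtain ⟨D, hD⟩ := one_add_pow_congr c M hc _ h2
    rw [hX, ← map_pow, ← pow_mul, mul_comm, pow_mul, hD, map_add, hFz D (M + 1) (by omega), add_zero,
      map_one]
  have hXtr : ∀ j, (X ^ j).trace = (d : ZMod (c ^ K)) := by
    intro j
    rw [hX, ← map_pow, hFtr]
    have h2 := (hpowR x j).trace hc M
    rw [← pow_mul] at h2
    have h3 := dvd_sub (htr j) ((pow_dvd_pow (c : ℤ) (show K ≤ M + 1 by omega)).trans h2)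
    have h4 : ((((R x ^ c ^ M) ^ j).trace - (d : ℤ) : ℤ) : ZMod (c ^ K)) = 0 := by
      rw [ZMod.intCast_zmod_eq_zero_iff_dvd]
      push_cast
      rw [← pow_mul, mul_comm (c ^ M) j]
      have h8 : ∀ a b c : ℤ, a - b - (a - c) = c - b := by intros; ring
      rwa [h8] at h3
    rw [Int.cast_sub, sub_eq_zero, Int.cast_natCast] at h4
    exact h4
  -- the idempotent
  obtain ⟨T, hT⟩ : ∃ T, T = ∑ i ∈ Finset.range p, X ^ i := ⟨_, rfl⟩
  have hTT : T * T = p • T := by rw [hT]; exact h275_TT X p hXp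
  obtain ⟨v, hv⟩ : ∃ v : ZMod (c ^ K), v * (p : ZMod (c ^ K)) = 1 := by
    have hcop : Nat.Coprime p (c ^ K) := Nat.Coprime.pow_right K ((Nat.coprime_primes hp hc).2 hcp.symm)
    refine ⟨(((ZMod.unitOfCoprime p hcop)⁻¹ : (ZMod (c ^ K))ˣ) : ZMod (c ^ K)), ?_⟩
    rw [← ZMod.coe_unitOfCoprime p hcop]
    exact Units.inv_mul _
  have hE : (v • T) * (v • T) = v • T := by
    rw [smul_mul_smul_comm, hTT, ← Nat.cast_smul_eq_nsmul (ZMod (c ^ K)), smul_smul, mul_assoc, hv,
      mul_one]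
  have hEtr : (1 - v • T).trace = 0 := by
    rw [Matrix.trace_sub, Matrix.trace_one, Fintype.card_fin, Matrix.trace_smul, hT,
      Matrix.trace_sum, Finset.sum_congr rfl fun i _ => hXtr i, Finset.sum_const, Finset.card_range,
      nsmul_eq_mul, smul_eq_mul, ← mul_assoc, hv, one_mul, sub_self]
  have hE1 : 1 - v • T = 0 := by
    refine idem_trace_zero c K d hK1 hKd _ ?_ hEtr
    rw [mul_sub, sub_mul, sub_mul, one_mul, mul_one, one_mul, hE]; abel
  have hE2 : v • T = 1 := (sub_eq_zero.1 hE1).symm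
  have hXT : X * T = T := by
    have e1 := Finset.sum_range_succ' (fun i => X ^ i) p
    have e2 := Finset.sum_range_succ (fun i => X ^ i) p
    rw [e2, hXp, pow_zero] at e1
    have e3 := add_right_cancel e1
    conv_lhs => rw [hT, Finset.mul_sum]
    rw [hT, e3]
    exact Finset.sum_congr rfl fun i _ => (pow_succ' X i).symm
  have hX1 : X = 1 := by
    rw [← mul_one X, ← hE2, mul_smul_comm, hXT]
  -- reduction
  have h2 : MC c (R x ^ c ^ M) 1 := by
    rw [MC_iff, hm1]
    have hdvd : c ∣ c ^ K := dvd_pow_self c (by omega)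
    have h3 : ∀ A : Matrix (Fin d) (Fin d) ℤ, A.map (Int.castRingHom (ZMod c)) =
        (F A).map (ZMod.castHom hdvd (ZMod c)) := by
      intro A
      ext i j
      show ((A i j : ℤ) : ZMod c) = ZMod.castHom hdvd (ZMod c) ((A i j : ℤ) : ZMod (c ^ K))
      rw [map_intCast]
    rw [h3, ← hX, hX1]
    exact Matrix.map_one _ (map_zero _) (map_one _)
  have h3 := (hpowR x (c ^ M)).trans h2
  rw [hxM, MC_iff, hR, hm1] at h3
  exact h3

end

end Pool.Agent.H64
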