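import Mathlib
import Pool.Agent.H64.N4
set_option autoImplicit false
namespace Pool.Agent.H64
open Pool.Agent.Helper495_PQ

theorem cyc_mul {E : Type*} [Ring E] (X : E) (p : ℕ) (hX : X ^ p = 1) :
    X * ∑ i ∈ Finset.range p, X ^ i = ∑ i ∈ Finset.range p, X ^ i := by
  have e1 := Finset.sum_range_succ' (fun i => X ^ i) p
  have e2 := Finset.sum_range_succ (fun i => X ^ i) p
  rw [e2, hX, pow_zero] at e1
  have e3 := add_right_cancel e1
  rw [Finset.mul_sum, e3]
  exact Finset.sum_congr rfl fun i _ => (pow_succ' X i).symm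

theorem cyc_sq {E : Type*} [Ring E] (X : E) (p : ℕ) (hX : X ^ p = 1) :
    (∑ i ∈ Finset.range p, X ^ i) * (∑ i ∈ Finset.range p, X ^ i) =
      p • ∑ i ∈ Finset.range p, X ^ i := by
  have key : ∀ j : ℕ, X ^ j * (∑ i ∈ Finset.range p, X ^ i) = ∑ i ∈ Finset.range p, X ^ i := by
    intro j
    induction j with
    | zero => rw [pow_zero, one_mul]
    | succ j ih => rw [pow_succ, mul_assoc, cyc_mul X p hX, ih]
  rw [Finset.sum_mul, Finset.sum_congr rfl fun j _ => key j, Finset.sum_const, Finset.card_range]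

section
variable {G : Type} [Group G] [Fintype G]

/-- the module spanned by the images of the group elements -/
theorem span_rep (k : Type*) [Field k] {A : Type*} [Ring A] [Algebra k A]
    (f : MonoidAlgebra ℤ G →+* A) : ∃ (S : Submodule k A) (ρ : G →* Module.End k S),
      Module.Finite k S ∧ (1 : A) ∈ S ∧ (∀ g s, ((ρ g s : S) : A) = f (MonoidAlgebra.single g 1) * s) ∧
      ∀ w s, ((MonoidAlgebra.lift ℤ (Module.End k S) G ρ w s : S) : A) = f w * s := by
  let S : Submodule k A := Submodule.span k (Set.range fun g : G => f (MonoidAlgebra.single g 1))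
  have hmul : ∀ (g : G) (s : A), s ∈ S → f (MonoidAlgebra.single g 1) * s ∈ S := by
    intro g s hs
    induction hs using Submodule.span_induction with
    | mem s hs =>
      obtain ⟨h, rfl⟩ := hs
      apply Submodule.subset_span
      refine ⟨g * h, ?_⟩
      simp only
      rw [← map_mul, MonoidAlgebra.single_mul_single, one_mul]
    | zero => rw [mul_zero]; exact S.zero_mem
    | add a b _ _ ha hb => rw [mul_add]; exact S.add_mem ha hb
    | smul c a _ ha => rw [mul_smul_comm]; exact S.smul_mem c ha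
  let ρ : G →* Module.End k S :=
    { toFun := fun g => (LinearMap.mulLeft k (f (MonoidAlgebra.single g 1))).restrict (hmul g)
      map_one' := by
        ext s
        show f (MonoidAlgebra.single 1 1) * (s : A) = s
        rw [← MonoidAlgebra.one_def, map_one, one_mul]
      map_mul' := by
        intro g h
        ext s
        show f (MonoidAlgebra.single (g * h) 1) * (s : A) =
          f (MonoidAlgebra.single g 1) * (f (MonoidAlgebra.single h 1) * (s : A))
        rw [← mul_assoc, ← map_mul, MonoidAlgebra.single_mul_single, one_mul] }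
  have hρ : ∀ g s, ((ρ g s : S) : A) = f (MonoidAlgebra.single g 1) * s := fun g s => rfl
  refine ⟨S, ρ, ?_, ?_, hρ, ?_⟩
  · have : Finite (Set.range fun g : G => f (MonoidAlgebra.single g 1)) := Set.finite_range _
    exact Module.Finite.iff_fg.2 (Submodule.fg_span (Set.finite_range _))
  · apply Submodule.subset_span
    refine ⟨1, ?_⟩
    simp only
    rw [← MonoidAlgebra.one_def, map_one]
  · intro w s
    induction w using MonoidAlgebra.induction_linear with
    | zero => simp
    | add a b ha hb => rw [map_add, LinearMap.add_apply, Submodule.coe_add, ha, hb, map_add, add_mul]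
    | single g r =>
      rw [MonoidAlgebra.lift_single, LinearMap.smul_apply, Submodule.coe_smul_of_tower, hρ]
      have h1 : MonoidAlgebra.single g r = r • MonoidAlgebra.single g (1 : ℤ) := by
        rw [MonoidAlgebra.smul_single, smul_eq_mul, mul_one]
      rw [h1, map_zsmul, smul_mul_assoc]

/-- A unit of prime order in the kernel of a homomorphism to a ring of another prime characteristic
comes from an element of the group in the kernel. -/
theorem fix_ring_char (c p : ℕ) (hc : c.Prime) (hp : p.Prime) (hcp : c ≠ p)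
    {A : Type*} [Ring A] (hA : (c : A) = 0) (f : MonoidAlgebra ℤ G →+* A)
    (u : (MonoidAlgebra ℤ G)ˣ)
    (haug : MonoidAlgebra.lift ℤ ℤ G (1 : G →* ℤ) (u : MonoidAlgebra ℤ G) = 1)
    (hu : orderOf u = p) (x : G) (hx : orderOf x = p) (hux : PAug (u : MonoidAlgebra ℤ G) x)
    (h1 : f (u : MonoidAlgebra ℤ G) = 1) : f (MonoidAlgebra.single x 1) = 1 := by
  rcases subsingleton_or_nontrivial A with hs | hn
  · exact Subsingleton.elim _ _
  have : Fact c.Prime := ⟨hc⟩
  have hchar : CharP A c := (CharP.charP_iff_prime_eq_zero hc).2 hA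
  let _ : Algebra (ZMod c) A := ZMod.algebra A c
  obtain ⟨S, ρ, hfin, h1S, hρ, hlift⟩ := span_rep (ZMod c) f
  let b := Module.finBasis (ZMod c) S
  let e := LinearMap.toMatrixAlgEquiv b
  let ρ' : G →* Matrix (Fin (Module.finrank (ZMod c) S)) (Fin (Module.finrank (ZMod c) S)) (ZMod c) :=
    (e : _ →* _).comp ρ
  have h2 : MonoidAlgebra.lift ℤ (Module.End (ZMod c) S) G ρ (u : MonoidAlgebra ℤ G) = 1 := by
    ext s
    rw [hlift, h1, one_mul]
    rfl
  have h3 : MonoidAlgebra.lift ℤ _ G ρ' (u : MonoidAlgebra ℤ G) = 1 := by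
    have h4 : MonoidAlgebra.lift ℤ _ G ρ' (u : MonoidAlgebra ℤ G) =
        e (MonoidAlgebra.lift ℤ (Module.End (ZMod c) S) G ρ (u : MonoidAlgebra ℤ G)) := by
      rw [MonoidAlgebra.lift_apply, MonoidAlgebra.lift_apply, Finsupp.sum_fintype _ _ (by simp),
        Finsupp.sum_fintype _ _ (by simp), map_sum]
      refine Finset.sum_congr rfl fun g _ => ?_
      rw [map_zsmul]
      rfl
    rw [h4, h2, map_one]
  have h4 := fix_char c p _ hc hp hcp ρ' u haug hu x hx hux h3
  have h5 : ρ x = 1 := e.injective (by rw [map_one]; exact h4)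
  have h6 := hρ x ⟨1, h1S⟩
  rw [h5, mul_one] at h6
  exact h6.symm

/-- an idempotent rational matrix of trace zero is zero -/
theorem idem_trace_zero_rat (d : ℕ) (P : Matrix (Fin d) (Fin d) ℚ) (hP : P * P = P)
    (htr : P.trace = 0) : P = 0 := by
  let f : Module.End ℚ (Fin d → ℚ) := Matrix.toLin' P
  have hff : f * f = f := by
    show Matrix.toLin' P * Matrix.toLin' P = Matrix.toLin' P
    rw [Module.End.mul_eq_comp, ← Matrix.toLin'_mul, hP]
  have hproj : LinearMap.IsProj (LinearMap.range f) f := by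
    refine ⟨fun x => ⟨x, rfl⟩, ?_⟩
    rintro _ ⟨y, rfl⟩
    rw [← Module.End.mul_apply, hff]
  have h5 := hproj.trace
  have h6 : LinearMap.trace ℚ (Fin d → ℚ) f = 0 := by
    rw [← htr]
    exact Matrix.trace_toLin'_eq P
  rw [h6] at h5
  have h7 : Module.finrank ℚ (LinearMap.range f) = 0 := by exact_mod_cast h5.symm
  have h8 : LinearMap.range f = ⊥ := Submodule.finrank_eq_zero.1 h7
  exact (Matrix.toLin'.map_eq_zero_iff).1 (LinearMap.range_eq_bot.1 h8)

theorem fix_rat_matrix (p d : ℕ) (hp : p.Prime) (ρ : G →* Matrix (Fin d) (Fin d) ℚ)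
    (u : (MonoidAlgebra ℤ G)ˣ)
    (haug : MonoidAlgebra.lift ℤ ℤ G (1 : G →* ℤ) (u : MonoidAlgebra ℤ G) = 1)
    (hu : orderOf u = p) (x : G) (hx : orderOf x = p) (hux : PAug (u : MonoidAlgebra ℤ G) x)
    (h1 : MonoidAlgebra.lift ℤ (Matrix (Fin d) (Fin d) ℚ) G ρ (u : MonoidAlgebra ℤ G) = 1) :
    ρ x = 1 := by
  have h2 : ∀ j : ℕ, MonoidAlgebra.lift ℤ (Matrix (Fin d) (Fin d) ℚ) G ρ
      ((u ^ j : (MonoidAlgebra ℤ G)ˣ) : MonoidAlgebra ℤ G) = 1 := by
    intro j
    rw [Units.val_pow_eq_pow_val, map_pow, h1, one_pow]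
  have htr : ∀ j : ℕ, (ρ x ^ j).trace = d := by
    intro j
    by_cases hpj : p ∣ j
    · have h3 : x ^ j = 1 := by
        rw [← orderOf_dvd_iff_pow_eq_one, hx]; exact hpj
      rw [← map_pow, h3, map_one, Matrix.trace_one, Fintype.card_fin]
    · have hP := PAug.pow p hp j u haug hu x hx hux hpj
      have h3 := hP.sum (fun g => (ρ g).trace) (fun a b hab => by
        obtain ⟨d, hd⟩ := isConj_iff.1 hab
        rw [← hd, map_mul ρ, map_mul ρ, Matrix.trace_mul_comm, ← mul_assoc, ← map_mul ρ,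
          inv_mul_cancel, map_one, one_mul])
      rw [← map_pow, ← h3]
      have h4 := congrArg Matrix.trace (h2 j)
      rw [Matrix.trace_one, Fintype.card_fin, MonoidAlgebra.lift_apply,
        Finsupp.sum_fintype _ _ (by simp), Matrix.trace_sum] at h4
      rw [← h4]
      refine Finset.sum_congr rfl fun g _ => ?_
      rw [Matrix.trace_smul, zsmul_eq_mul]
  have hXp : ρ x ^ p = 1 := by
    have h4 : x ^ p = 1 := by rw [← hx]; exact pow_orderOf_eq_one x
    rw [← map_pow, h4, map_one]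
  obtain ⟨T, hT⟩ : ∃ T, T = ∑ i ∈ Finset.range p, ρ x ^ i := ⟨_, rfl⟩
  have hTT : T * T = p • T := by rw [hT]; exact cyc_sq (ρ x) p hXp
  have hXT : ρ x * T = T := by rw [hT]; exact cyc_mul (ρ x) p hXp
  have hp0 : (p : ℚ) ≠ 0 := Nat.cast_ne_zero.2 hp.ne_zero
  obtain ⟨E, hE⟩ : ∃ E : Matrix (Fin d) (Fin d) ℚ, E = (p : ℚ)⁻¹ • T := ⟨_, rfl⟩
  have hEE : E * E = E := by
    rw [hE, smul_mul_smul_comm, hTT, ← Nat.cast_smul_eq_nsmul ℚ, smul_smul, mul_assoc,
      inv_mul_cancel₀ hp0, mul_one]
  have hEtr : (1 - E).trace = 0 := by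
    rw [Matrix.trace_sub, Matrix.trace_one, Fintype.card_fin, hE, Matrix.trace_smul, hT,
      Matrix.trace_sum, Finset.sum_congr rfl fun i _ => htr i, Finset.sum_const, Finset.card_range,
      nsmul_eq_mul, smul_eq_mul, ← mul_assoc, inv_mul_cancel₀ hp0, one_mul, sub_self]
  have h8 : (1 - E) = 0 := by
    refine idem_trace_zero_rat d _ ?_ hEtr
    rw [mul_sub, sub_mul, sub_mul, one_mul, mul_one, one_mul, hEE]; abel
  have h9 : E = 1 := (sub_eq_zero.1 h8).symm
  rw [← mul_one (ρ x), ← h9]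
  conv_lhs => rw [hE, mul_smul_comm, hXT]
  exact hE.symm

/-- The same for homomorphisms to algebras over the rational numbers. -/
theorem fix_rat (p : ℕ) (hp : p.Prime) {A : Type*} [Ring A] [Algebra ℚ A]
    (f : MonoidAlgebra ℤ G →+* A) (u : (MonoidAlgebra ℤ G)ˣ)
    (haug : MonoidAlgebra.lift ℤ ℤ G (1 : G →* ℤ) (u : MonoidAlgebra ℤ G) = 1)
    (hu : orderOf u = p) (x : G) (hx : orderOf x = p) (hux : PAug (u : MonoidAlgebra ℤ G) x)
    (h1 : f (u : MonoidAlgebra ℤ G) = 1) : f (MonoidAlgebra.single x 1) = 1 := by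
  obtain ⟨S, ρ, hfin, h1S, hρ, hlift⟩ := span_rep ℚ f
  let b := Module.finBasis ℚ S
  let e := LinearMap.toMatrixAlgEquiv b
  let ρ' : G →* Matrix (Fin (Module.finrank ℚ S)) (Fin (Module.finrank ℚ S)) ℚ :=
    (e : _ →* _).comp ρ
  have h2 : MonoidAlgebra.lift ℤ (Module.End ℚ S) G ρ (u : MonoidAlgebra ℤ G) = 1 := by
    ext s
    rw [hlift, h1, one_mul]
    rfl
  have h3 : MonoidAlgebra.lift ℤ _ G ρ' (u : MonoidAlgebra ℤ G) = 1 := by
    have h4 : MonoidAlgebra.lift ℤ _ G ρ' (u : MonoidAlgebra ℤ G) =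
        e (MonoidAlgebra.lift ℤ (Module.End ℚ S) G ρ (u : MonoidAlgebra ℤ G)) := by
      rw [MonoidAlgebra.lift_apply, MonoidAlgebra.lift_apply, Finsupp.sum_fintype _ _ (by simp),
        Finsupp.sum_fintype _ _ (by simp), map_sum]
      refine Finset.sum_congr rfl fun g _ => ?_
      show (u : MonoidAlgebra ℤ G).coeff g • e (ρ g) = e ((u : MonoidAlgebra ℤ G).coeff g • ρ g)
      ext i j
      rw [Matrix.smul_apply, LinearMap.toMatrixAlgEquiv_apply, LinearMap.toMatrixAlgEquiv_apply,
        LinearMap.smul_apply]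
      simp
    rw [h4, h2, map_one]
  have h4 := fix_rat_matrix p _ hp ρ' u haug hu x hx hux h3
  have h5 : ρ x = 1 := e.injective (by rw [map_one]; exact h4)
  have h6 := hρ x ⟨1, h1S⟩
  rw [h5, mul_one] at h6
  exact h6.symm

/-- A torsion unit keeps its order under any homomorphism which is injective on the group and goes to
a ring of prime characteristic not dividing the order, or to an algebra over the rationals. -/
theorem order_preserved {A : Type*} [Ring A] (f : MonoidAlgebra ℤ G →+* A)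
    (hinj : Function.Injective fun g : G => f (MonoidAlgebra.single g 1))
    (u : (MonoidAlgebra ℤ G)ˣ)
    (haug : MonoidAlgebra.lift ℤ ℤ G (1 : G →* ℤ) (u : MonoidAlgebra ℤ G) = 1)
    (hu : IsOfFinOrder u)
    (hA : (∃ c : ℕ, c.Prime ∧ (c : A) = 0 ∧ ¬ c ∣ orderOf u) ∨ Nonempty (Algebra ℚ A)) :
    orderOf (f (u : MonoidAlgebra ℤ G)) = orderOf u := by
  have hn : 0 < orderOf u := orderOf_pos_iff.2 hu
  have key : ∀ p : ℕ, p.Prime → p ∣ orderOf u → f (u : MonoidAlgebra ℤ G) ^ (orderOf u / p) ≠ 1 := by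
    intro p hp hpn h1
    obtain ⟨v, hv⟩ : ∃ v, v = u ^ (orderOf u / p) := ⟨_, rfl⟩
    have hvo : orderOf v = p := by
      rw [hv]
      exact orderOf_pow_orderOf_div hn.ne' hpn
    have haugv : MonoidAlgebra.lift ℤ ℤ G (1 : G →* ℤ) (v : MonoidAlgebra ℤ G) = 1 := by
      rw [hv, Units.val_pow_eq_pow_val, map_pow, haug, one_pow]
    have hfv : f (v : MonoidAlgebra ℤ G) = 1 := by
      rw [hv, Units.val_pow_eq_pow_val, map_pow, h1]
    obtain ⟨x, hx, hPx⟩ := prime_order p hp v haugv hvo
    have hPx' : PAug (v : MonoidAlgebra ℤ G) x := by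
      intro g
      convert hPx g
    have hfx : f (MonoidAlgebra.single x 1) = 1 := by
      rcases hA with ⟨c, hc, hcA, hcn⟩ | ⟨⟨hQ⟩⟩
      · have hcp : c ≠ p := by
          rintro rfl
          exact hcn hpn
        exact fix_ring_char c p hc hp hcp hcA f v haugv hvo x hx hPx' hfv
      · exact fix_rat p hp f v haugv hvo x hx hPx' hfv
    have h2 : x = 1 := by
      apply hinj
      show f (MonoidAlgebra.single x 1) = f (MonoidAlgebra.single 1 1)
      rw [hfx, ← MonoidAlgebra.one_def, map_one]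
    rw [h2, orderOf_one] at hx
    exact hp.one_lt.ne hx
  refine orderOf_eq_of_pow_and_pow_div_prime hn ?_ fun p hp hpn => key p hp hpn
  rw [← map_pow, ← Units.val_pow_eq_pow_val, pow_orderOf_eq_one, Units.val_one, map_one]

end

end Pool.Agent.H64
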