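import Mathlib
set_option autoImplicit false
namespace Pool.Agent.H64

section lin
variable {F : Type*} [Field F] {V : Type*} [AddCommGroup V] [Module F V] [Module.Finite F V]

/-- In dimension at most three an operator of order prime to the characteristic which commutes with
a nonzero nilpotent operator has its eigenvalues in the ground field. -/
theorem comm_nilp (Q : ℕ) (hQ0 : 0 < Q) (hQ : ∀ a : F, a ≠ 0 → a ^ Q = 1)
    (hdim : Module.finrank F V ≤ 3) (s N : Module.End F V) (n : ℕ) (hn : (n : F) ≠ 0)
    (hs : s ^ n = 1) (hN : N ≠ 0) (k : ℕ) (hNk : N ^ k = 0) (hsN : Commute s N) : s ^ Q = 1 := by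
  obtain ⟨X, hX⟩ : ∃ X, X = s ^ Q := ⟨_, rfl⟩
  obtain ⟨D, hD⟩ : ∃ D : Module.End F V, D = X - 1 := ⟨_, rfl⟩
  have hXn : X ^ n = 1 := by rw [hX, ← pow_mul, mul_comm, pow_mul, hs, one_pow]
  have hXs : Commute X s := by rw [hX]; exact (Commute.refl s).pow_left Q
  have hXN : Commute X N := by rw [hX]; exact hsN.pow_left Q
  have hDs : Commute D s := by rw [hD]; exact hXs.sub_left (Commute.one_left s)
  have hDN : Commute D N := by rw [hD]; exact hXN.sub_left (Commute.one_left N)
  -- semisimplicity
  have hss : ∀ v, D (D v) = 0 → D v = 0 := by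
    intro v hv
    have h1 : ∀ j : ℕ, (X ^ j) v = v + (j : F) • D v := by
      intro j
      induction j with
      | zero => simp
      | succ j ih =>
        rw [pow_succ', Module.End.mul_apply, ih, map_add, map_smul]
        have hXw : ∀ w, X w = w + D w := by
          intro w
          rw [hD, LinearMap.sub_apply, Module.End.one_apply]; abel
        have h2 : X v = v + D v := hXw v
        have h3 : X (D v) = D v := by rw [hXw, hv, add_zero]
        rw [h2, h3]
        push_cast
        rw [add_smul, one_smul]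
        abel
    have h2 := h1 n
    rw [hXn, Module.End.one_apply] at h2
    have h3 : (n : F) • D v = 0 := by
      have : v + 0 = v + (n : F) • D v := by rw [add_zero]; exact h2
      exact (add_left_cancel this).symm
    exact (smul_eq_zero.1 h3).resolve_left hn
  -- eigenvectors are killed by `D`
  have hs_inj : Function.Injective s := by
    have hn0 : n ≠ 0 := by rintro rfl; simp at hn
    obtain ⟨n', rfl⟩ : ∃ n', n = n' + 1 := ⟨n - 1, by omega⟩
    intro a b hab
    have h1 : (s ^ (n' + 1)) a = (s ^ (n' + 1)) b := by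
      rw [pow_succ, Module.End.mul_apply, Module.End.mul_apply, hab]
    rwa [hs, Module.End.one_apply, Module.End.one_apply] at h1
  have heig : ∀ (v : V) (a : F), v ≠ 0 → s v = a • v → D v = 0 := by
    intro v a hv hsv
    have ha : a ≠ 0 := by
      rintro rfl
      rw [zero_smul] at hsv
      exact hv (hs_inj (by rw [hsv, map_zero]))
    have h1 : ∀ j : ℕ, (s ^ j) v = a ^ j • v := by
      intro j
      induction j with
      | zero => simp
      | succ j ih => rw [pow_succ', Module.End.mul_apply, ih, map_smul, hsv, smul_smul, ← pow_succ]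
    rw [hD, LinearMap.sub_apply, hX, h1, hQ a ha, one_smul, Module.End.one_apply, sub_self]
  -- invariant subspaces of the range of `D` are not one-dimensional
  obtain ⟨W, hW⟩ : ∃ W : Submodule F V, W = LinearMap.range D := ⟨_, rfl⟩
  have hWker : ∀ w ∈ W, D w = 0 → w = 0 := by
    rintro w hw h
    rw [hW] at hw
    obtain ⟨v, rfl⟩ := hw
    exact hss v h
  have hone : ∀ U : Submodule F V, U ≤ W → (∀ v ∈ U, s v ∈ U) → Module.finrank F U ≠ 1 := by
    intro U hUW hUs h1
    obtain ⟨v, hv0, hv⟩ := (finrank_eq_one_iff' (K := F) (V := U)).1 h1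
    obtain ⟨a, ha⟩ := hv ⟨s v, hUs v v.2⟩
    have ha' : s (v : V) = a • (v : V) := (congrArg Subtype.val ha).symm
    have hv0' : (v : V) ≠ 0 := fun h => hv0 (Subtype.ext h)
    exact hv0' (hWker _ (hUW v.2) (heig _ a hv0' ha'))
  have hWs : ∀ v ∈ W, s v ∈ W := by
    intro v hv
    rw [hW] at hv ⊢
    obtain ⟨w, rfl⟩ := hv
    exact ⟨s w, by rw [← Module.End.mul_apply, ← Module.End.mul_apply, hDs.eq]⟩
  have hWN : ∀ v ∈ W, N v ∈ W := by
    intro v hv
    rw [hW] at hv ⊢
    obtain ⟨w, rfl⟩ := hv
    exact ⟨N w, by rw [← Module.End.mul_apply, ← Module.End.mul_apply, hDN.eq]⟩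
  -- `N` kills `W`
  have hNW : ∀ v ∈ W, N v = 0 := by
    let f : W →ₗ[F] V := N.domRestrict W
    have hrk := LinearMap.finrank_range_add_finrank_ker f
    have hWdim : Module.finrank F W ≤ 3 := (Submodule.finrank_le W).trans hdim
    -- the kernel
    obtain ⟨U, hU⟩ : ∃ U : Submodule F V, U = W ⊓ LinearMap.ker N := ⟨_, rfl⟩
    have hUker : Module.finrank F (LinearMap.ker f) = Module.finrank F U := by
      have e : LinearMap.ker f = U.comap W.subtype := by
        ext w
        rw [LinearMap.mem_ker, Submodule.mem_comap, hU, Submodule.mem_inf, LinearMap.mem_ker]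
        exact ⟨fun h => ⟨w.2, h⟩, fun h => h.2⟩
      rw [e]
      exact (Submodule.comapSubtypeEquivOfLe (by rw [hU]; exact inf_le_left)).finrank_eq
    have hU1 : Module.finrank F U ≠ 1 := by
      apply hone U (by rw [hU]; exact inf_le_left)
      intro v hv
      rw [hU, Submodule.mem_inf, LinearMap.mem_ker] at hv ⊢
      refine ⟨hWs v hv.1, ?_⟩
      rw [← Module.End.mul_apply, ← hsN.eq, Module.End.mul_apply, hv.2, map_zero]
    have hR1 : Module.finrank F (LinearMap.range f) ≠ 1 := by
      apply hone
      · rintro _ ⟨w, rfl⟩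
        exact hWN w w.2
      · rintro _ ⟨w, rfl⟩
        refine ⟨⟨s w, hWs w w.2⟩, ?_⟩
        show N (s w) = s (N w)
        rw [← Module.End.mul_apply, ← hsN.eq, Module.End.mul_apply]
    have hU0 : Module.finrank F U = 0 → W = ⊥ := by
      intro h0
      have h1 : U = ⊥ := Submodule.finrank_eq_zero.1 h0
      rw [eq_bot_iff]
      intro w hw
      by_contra hne
      have hex : ∃ j : ℕ, (N ^ j) w = 0 := ⟨k, by rw [hNk]; rfl⟩
      classical
      have h2 := Nat.find_spec hex
      have h3 : Nat.find hex ≠ 0 := by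
        intro h
        rw [h, pow_zero, Module.End.one_apply] at h2
        exact hne h2
      obtain ⟨j, hj⟩ : ∃ j, Nat.find hex = j + 1 := ⟨Nat.find hex - 1, by omega⟩
      rw [hj] at h2
      have h4 : (N ^ j) w ≠ 0 := Nat.find_min hex (by omega)
      have h5 : ∀ i : ℕ, (N ^ i) w ∈ W := by
        intro i
        induction i with
        | zero => simpa using hw
        | succ i ih => rw [pow_succ', Module.End.mul_apply]; exact hWN _ ih
      apply h4
      have h6 : (N ^ j) w ∈ U := by
        rw [hU, Submodule.mem_inf, LinearMap.mem_ker, ← Module.End.mul_apply, ← pow_succ']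
        exact ⟨h5 j, h2⟩
      rw [h1] at h6
      exact h6
    rw [hUker] at hrk
    have hcase : Module.finrank F (LinearMap.range f) = 0 := by
      by_contra hne
      have h1 : Module.finrank F U = 0 := by omega
      have h2 := hU0 h1
      apply hne
      have h3 : Module.finrank F W = 0 := Submodule.finrank_eq_zero.2 h2
      omega
    have h1 : LinearMap.range f = ⊥ := Submodule.finrank_eq_zero.1 hcase
    intro v hv
    have h2 : f ⟨v, hv⟩ ∈ LinearMap.range f := ⟨_, rfl⟩
    rw [h1] at h2
    exact h2
  by_contra hcon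
  rw [← hX] at hcon
  have hD0 : D ≠ 0 := by
    intro h
    apply hcon
    rw [hD, sub_eq_zero] at h
    exact h
  have hWne : Module.finrank F W ≠ 0 := by
    intro h
    have := Submodule.finrank_eq_zero.1 h
    rw [hW] at this
    exact hD0 (LinearMap.range_eq_bot.1 this)
  have hW2 : 2 ≤ Module.finrank F W := by
    have := hone W le_rfl hWs
    omega
  -- the kernel of `D` is at most one-dimensional
  obtain ⟨W', hW'⟩ : ∃ W' : Submodule F V, W' = LinearMap.ker D := ⟨_, rfl⟩
  have hrk : Module.finrank F W + Module.finrank F W' = Module.finrank F V := by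
    rw [hW, hW']; exact LinearMap.finrank_range_add_finrank_ker D
  have hW'1 : Module.finrank F W' ≤ 1 := by omega
  have hW'N : ∀ v ∈ W', N v ∈ W' := by
    intro v hv
    rw [hW', LinearMap.mem_ker] at hv ⊢
    rw [← Module.End.mul_apply, hDN.eq, Module.End.mul_apply, hv, map_zero]
  have hNW' : ∀ v ∈ W', N v = 0 := by
    intro v hv
    by_cases hv0 : v = 0
    · rw [hv0, map_zero]
    obtain ⟨w, hw⟩ := (finrank_le_one_iff (K := F) (V := W')).1 hW'1
    obtain ⟨a, ha⟩ := hw ⟨v, hv⟩
    obtain ⟨b, hb⟩ := hw ⟨N v, hW'N v hv⟩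
    have ha' : a • (w : V) = v := congrArg Subtype.val ha
    have hb' : b • (w : V) = N v := congrArg Subtype.val hb
    have ha0 : a ≠ 0 := by
      rintro rfl
      rw [zero_smul] at ha'
      exact hv0 ha'.symm
    have h1 : N v = (b * a⁻¹) • v := by
      rw [← hb']
      conv_rhs => rw [← ha']
      rw [smul_smul, mul_assoc, inv_mul_cancel₀ ha0, mul_one]
    have h2 : ∀ j : ℕ, (N ^ j) v = (b * a⁻¹) ^ j • v := by
      intro j
      induction j with
      | zero => simp
      | succ j ih => rw [pow_succ', Module.End.mul_apply, ih, map_smul, h1, smul_smul, ← pow_succ]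
    have h3 := h2 k
    rw [hNk, LinearMap.zero_apply] at h3
    have h4 : (b * a⁻¹) ^ k = 0 := (smul_eq_zero.1 h3.symm).resolve_right hv0
    have h5 : b * a⁻¹ = 0 := by
      by_contra hne
      exact pow_ne_zero k hne h4
    rw [h1, h5, zero_smul]
  have htop : W ⊔ W' = ⊤ := by
    apply Submodule.eq_top_of_disjoint
    · exact hrk.ge
    · rw [Submodule.disjoint_def]
      intro v hv hv'
      rw [hW', LinearMap.mem_ker] at hv'
      exact hWker v hv hv'
  apply hN
  ext v
  have hv : v ∈ W ⊔ W' := by rw [htop]; trivial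
  obtain ⟨a, ha, b, hb, rfl⟩ := Submodule.mem_sup.1 hv
  rw [map_add, hNW a ha, hNW' b hb, add_zero, LinearMap.zero_apply]

end lin

end Pool.Agent.H64
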