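import Mathlib
import Pool.Agent.H64.N5
import Pool.Agent.H64.N6
import Pool.Graph.R_pool_sql_team_seeded_620a6dc7.Helper495_PQ.Fin
import Pool.Graph.R_pool_sql_team_seeded_620a6dc7.Helper495_SP.Cyc
set_option autoImplicit false
namespace Pool.Agent.H64
open Pool.Agent.Helper495_PQ
open Pool.Agent.Helper495_SP (exists_of_prime_pow)

section
variable {F : Type} [Field F] [Finite F] {m : ℕ}

/-- an element of the group gives a normalised unit of the same order -/
theorem unit_of_elem {G : Type} [Group G] (g : G) : ∃ u : (MonoidAlgebra ℤ G)ˣ,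
    MonoidAlgebra.lift ℤ ℤ G (1 : G →* ℤ) (u : MonoidAlgebra ℤ G) = 1 ∧ orderOf u = orderOf g := by
  have hinj : Function.Injective (Units.map (MonoidAlgebra.of ℤ G) : Gˣ →* (MonoidAlgebra ℤ G)ˣ) :=
    Units.map_injective MonoidAlgebra.of_injective
  refine ⟨Units.map (MonoidAlgebra.of ℤ G) (toUnits g), by simp, ?_⟩
  rw [orderOf_injective _ hinj]
  exact orderOf_injective toUnits.toMonoidHom toUnits.injective g

/-- units of order prime to the characteristic in the group ring of the general linear group -/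
theorem gl_prime_to (n : ℕ) (hn : (n : F) ≠ 0)
    (u : (MonoidAlgebra ℤ (Matrix.GeneralLinearGroup (Fin m) F))ˣ)
    (haug : MonoidAlgebra.lift ℤ ℤ _ (1 : Matrix.GeneralLinearGroup (Fin m) F →* ℤ)
      (u : MonoidAlgebra ℤ (Matrix.GeneralLinearGroup (Fin m) F)) = 1)
    (hu : orderOf u = n) : ∃ g : Matrix.GeneralLinearGroup (Fin m) F, orderOf g = n := by
  classical
  have : Fintype (Matrix.GeneralLinearGroup (Fin m) F) := Fintype.ofFinite _
  have hn0 : 0 < n := by
    rcases Nat.eq_zero_or_pos n with h | h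
    · rw [h, Nat.cast_zero] at hn; exact absurd rfl hn
    · exact h
  obtain ⟨c, hc⟩ := CharP.exists F
  have hcp : c.Prime := CharP.char_is_prime F c
  let f : MonoidAlgebra ℤ (Matrix.GeneralLinearGroup (Fin m) F) →+* Matrix (Fin m) (Fin m) F :=
    (MonoidAlgebra.lift ℤ (Matrix (Fin m) (Fin m) F) _ (Units.coeHom _)).toRingHom
  have hfg : ∀ g : Matrix.GeneralLinearGroup (Fin m) F, f (MonoidAlgebra.single g 1) = g := by
    intro g
    show MonoidAlgebra.lift ℤ (Matrix (Fin m) (Fin m) F) _ (Units.coeHom _)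
      (MonoidAlgebra.single g 1) = _
    rw [MonoidAlgebra.lift_single, one_smul]
    rfl
  have hinj : Function.Injective fun g : Matrix.GeneralLinearGroup (Fin m) F =>
      f (MonoidAlgebra.single g 1) := by
    intro a b hab
    simp only [hfg] at hab
    exact Units.ext hab
  have hcA : (c : Matrix (Fin m) (Fin m) F) = 0 := by
    have h1 : (c : Matrix (Fin m) (Fin m) F) = algebraMap F _ (c : F) := (map_natCast _ _).symm
    rw [h1, CharP.cast_eq_zero, map_zero]
  have hord := order_preserved f hinj u haug (by rw [← orderOf_pos_iff, hu]; exact hn0)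
    (Or.inl ⟨c, hcp, hcA, by
      rw [hu, ← CharP.cast_eq_zero_iff F c]; exact hn⟩)
  refine ⟨Units.map f.toMonoidHom u, ?_⟩
  rw [← orderOf_units]
  show orderOf (f (u : MonoidAlgebra ℤ _)) = n
  rw [hord, hu]

/-- commuting elements of order `c` and of order prime to `c` in dimension at most three -/
theorem gl_centralizer (c : ℕ) [CharP F c] (hc : c.Prime) (hm : m ≤ 3)
    (s t : Matrix.GeneralLinearGroup (Fin m) F) (hst : Commute s t) (ht : orderOf t = c)
    (hs : ¬ c ∣ orderOf s) : s ^ (Nat.card F - 1) = 1 := by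
  classical
  have : Fintype F := Fintype.ofFinite F
  let S : Module.End F (Fin m → F) := Matrix.toLinAlgEquiv' (s : Matrix (Fin m) (Fin m) F)
  let T : Module.End F (Fin m → F) := Matrix.toLinAlgEquiv' (t : Matrix (Fin m) (Fin m) F)
  have hcardF : Fintype.card F = Nat.card F := (Nat.card_eq_fintype_card).symm
  have h1 : S ^ (Nat.card F - 1) = 1 := by
    refine comm_nilp (Nat.card F - 1) ?_ ?_ ?_ S (T - 1) (orderOf s) ?_ ?_ ?_ c ?_ ?_
    · have : 1 < Nat.card F := Finite.one_lt_card
      omega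
    · intro a ha
      rw [← hcardF]
      exact FiniteField.pow_card_sub_one_eq_one a ha
    · rw [Module.finrank_fin_fun]; exact hm
    · rw [Ne, CharP.cast_eq_zero_iff F c]; exact hs
    · show (Matrix.toLinAlgEquiv' (s : Matrix (Fin m) (Fin m) F) : Module.End F (Fin m → F)) ^ _ = 1
      rw [← map_pow, ← Units.val_pow_eq_pow_val, pow_orderOf_eq_one, Units.val_one, map_one]
    · intro h
      have h2 : T = 1 := sub_eq_zero.1 h
      have h3 : (t : Matrix (Fin m) (Fin m) F) = 1 := by
        apply (Matrix.toLinAlgEquiv' : Matrix (Fin m) (Fin m) F ≃ₐ[F] _).injective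
        rw [map_one]; exact h2
      have h4 : t = 1 := Units.ext h3
      rw [h4, orderOf_one] at ht
      exact hc.one_lt.ne ht
    · have : Fact c.Prime := ⟨hc⟩
      have hT : T ^ c = 1 := by
        show (Matrix.toLinAlgEquiv' (t : Matrix (Fin m) (Fin m) F) : Module.End F (Fin m → F)) ^ c = 1
        rw [← map_pow, ← Units.val_pow_eq_pow_val, ← ht, pow_orderOf_eq_one, Units.val_one, map_one]
      rcases subsingleton_or_nontrivial (Module.End F (Fin m → F)) with h | h
      · exact Subsingleton.elim _ _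
      have : CharP (Module.End F (Fin m → F)) c :=
        charP_of_injective_algebraMap (algebraMap F (Module.End F (Fin m → F))).injective c
      rw [sub_pow_char_of_commute c (Commute.one_right T), hT, one_pow, sub_self]
    · have h5 : Commute S T := by
        show S * T = T * S
        show Matrix.toLinAlgEquiv' (s : Matrix (Fin m) (Fin m) F) * Matrix.toLinAlgEquiv' (t : Matrix (Fin m) (Fin m) F) =
          Matrix.toLinAlgEquiv' (t : Matrix (Fin m) (Fin m) F) * Matrix.toLinAlgEquiv' (s : Matrix (Fin m) (Fin m) F)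
        rw [← map_mul, ← map_mul, ← Units.val_mul, ← Units.val_mul, hst.eq]
      exact h5.sub_right (Commute.one_right S)
  apply Units.ext
  apply (Matrix.toLinAlgEquiv' : Matrix (Fin m) (Fin m) F ≃ₐ[F] _).injective
  rw [Units.val_pow_eq_pow_val, map_pow, Units.val_one, map_one]
  exact h1

/-- all units of finite order for `m ≤ 3` -/
theorem gl_small (hm : m ≤ 3) (n : ℕ) (hn0 : 0 < n)
    (u : (MonoidAlgebra ℤ (Matrix.GeneralLinearGroup (Fin m) F))ˣ)
    (haug : MonoidAlgebra.lift ℤ ℤ _ (1 : Matrix.GeneralLinearGroup (Fin m) F →* ℤ)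
      (u : MonoidAlgebra ℤ (Matrix.GeneralLinearGroup (Fin m) F)) = 1)
    (hu : orderOf u = n) : ∃ g : Matrix.GeneralLinearGroup (Fin m) F, orderOf g = n := by
  classical
  by_cases hn : (n : F) ≠ 0
  · exact gl_prime_to n hn u haug hu
  have : Fintype (Matrix.GeneralLinearGroup (Fin m) F) := Fintype.ofFinite _
  have : Fintype F := Fintype.ofFinite F
  push Not at hn
  obtain ⟨c, hc⟩ := CharP.exists F
  have hcp : c.Prime := CharP.char_is_prime F c
  rw [CharP.cast_eq_zero_iff F c] at hn
  obtain ⟨k, n', hn'c, hnk⟩ := Nat.exists_eq_pow_mul_and_not_dvd hn0.ne' c hcp.ne_one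
  have hk : 1 ≤ k := by
    rcases Nat.eq_zero_or_pos k with h | h
    · subst h
      rw [pow_zero, one_mul] at hnk
      rw [hnk] at hn
      exact absurd hn hn'c
    · exact h
  have hn'0 : 0 < n' := by
    rcases Nat.eq_zero_or_pos n' with h | h
    · rw [h] at hn'c; exact absurd (dvd_zero c) hn'c
    · exact h
  have haugp : ∀ j : ℕ, MonoidAlgebra.lift ℤ ℤ _ (1 : Matrix.GeneralLinearGroup (Fin m) F →* ℤ)
      ((u ^ j : (MonoidAlgebra ℤ (Matrix.GeneralLinearGroup (Fin m) F))ˣ) :
        MonoidAlgebra ℤ (Matrix.GeneralLinearGroup (Fin m) F)) = 1 := by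
    intro j
    rw [Units.val_pow_eq_pow_val, map_pow, haug, one_pow]
  -- orders of powers
  have hpoword : ∀ d, d ∣ n → ∃ j, orderOf (u ^ j) = d := by
    rintro d ⟨e, he⟩
    have he0 : e ≠ 0 := by rintro rfl; omega
    refine ⟨e, ?_⟩
    rw [orderOf_pow_of_dvd he0 (by rw [hu, he]; exact Dvd.intro_left d rfl), hu, he,
      Nat.mul_div_cancel _ (Nat.pos_of_ne_zero he0)]
  -- `n'` divides `q - 1`
  have hq1 : 0 < Nat.card F - 1 := by
    have : 1 < Nat.card F := Finite.one_lt_card
    omega
  have hdiv : n' ∣ Nat.card F - 1 := by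
    rw [← Nat.factorization_prime_le_iff_dvd hn'0.ne' hq1.ne']
    intro l hl
    obtain ⟨b, hb⟩ : ∃ b, b = n'.factorization l := ⟨_, rfl⟩
    rw [← hb]
    rcases Nat.eq_zero_or_pos b with hb0 | hb0
    · rw [hb0]; exact Nat.zero_le _
    have hlb : l ^ b ∣ n' := by rw [hb]; exact Nat.ordProj_dvd n' l
    have hlc : l ≠ c := by
      rintro rfl
      exact hn'c ((dvd_pow_self l hb0.ne').trans hlb)
    have hdn : l ^ b * c ∣ n := by
      rw [hnk, mul_comm (c ^ k)]
      exact Nat.mul_dvd_mul hlb (dvd_pow_self c (by omega))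
    obtain ⟨j, hj⟩ := hpoword _ hdn
    obtain ⟨g, hg⟩ := order_pa_q l c b hl hcp hlc hb0 (u ^ j) (haugp j) hj
    have hcop : Nat.Coprime (l ^ b) c := Nat.Coprime.pow_left b ((Nat.coprime_primes hl hcp).2 hlc)
    have hs : orderOf (g ^ c) = l ^ b := by
      rw [orderOf_pow_of_dvd hcp.ne_zero (by rw [hg]; exact Dvd.intro_left _ rfl), hg,
        Nat.mul_div_cancel _ hcp.pos]
    have ht : orderOf (g ^ l ^ b) = c := by
      rw [orderOf_pow_of_dvd (pow_ne_zero _ hl.ne_zero) (by rw [hg]; exact Dvd.intro _ rfl), hg,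
        Nat.mul_div_cancel_left _ (pow_pos hl.pos b)]
    have h1 := gl_centralizer c hcp hm (g ^ c) (g ^ l ^ b) (Commute.pow_pow_self g _ _) ht (by
      rw [hs]
      intro h
      exact hlc ((Nat.prime_dvd_prime_iff_eq hcp hl).1 (hcp.dvd_of_dvd_pow h)).symm)
    have h2 := orderOf_dvd_of_pow_eq_one h1
    rw [hs] at h2
    exact (hl.pow_dvd_iff_le_factorization hq1.ne').1 h2
  -- an element of order `c ^ k`
  obtain ⟨j, hj⟩ := hpoword (c ^ k) (by rw [hnk]; exact Dvd.intro _ rfl)
  obtain ⟨t, ht⟩ := exists_of_prime_pow c k hcp (u ^ j) (haugp j) hj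
  -- a scalar of order `n'`
  have hcyc : IsCyclic Fˣ := inferInstance
  obtain ⟨a, ha⟩ := hcyc.exists_generator
  have hacard : orderOf a = Nat.card F - 1 := by
    rw [orderOf_eq_card_of_forall_mem_zpowers ha, Nat.card_units]
  obtain ⟨e, he⟩ := hdiv
  have hz : orderOf (a ^ e) = n' := by
    have he0 : e ≠ 0 := by rintro rfl; omega
    rw [orderOf_pow_of_dvd he0 (by rw [hacard, he]; exact Dvd.intro_left _ rfl), hacard, he,
      Nat.mul_div_cancel _ (Nat.pos_of_ne_zero he0)]
  by_cases hm0 : m = 0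
  · subst hm0
    have : Subsingleton (Matrix.GeneralLinearGroup (Fin 0) F) :=
      ⟨fun a b => Units.ext (Subsingleton.elim _ _)⟩
    rw [Subsingleton.elim t 1, orderOf_one] at ht
    exact absurd ht (Nat.one_lt_pow (by omega) hcp.one_lt).ne
  have : Nonempty (Fin m) := ⟨⟨0, by omega⟩⟩
  let sc : Fˣ →* Matrix.GeneralLinearGroup (Fin m) F :=
    Units.map (algebraMap F (Matrix (Fin m) (Fin m) F)).toMonoidHom
  have hsc : Function.Injective sc := Units.map_injective (algebraMap F _).injective
  have hscc : ∀ b, Commute (sc b) t := by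
    intro b
    apply Units.ext
    exact Algebra.commutes _ _
  refine ⟨sc (a ^ e) * t, ?_⟩
  have ho1 : orderOf (sc (a ^ e)) = n' := by rw [orderOf_injective sc hsc, hz]
  have hcop : Nat.Coprime (orderOf (sc (a ^ e))) (orderOf t) := by
    rw [ho1, ht]
    exact (Nat.Coprime.pow_left k ((Nat.Prime.coprime_iff_not_dvd hcp).2 hn'c)).symm
  rw [(hscc _).orderOf_mul_eq_mul_orderOf_of_coprime hcop, ho1, ht, hnk, mul_comm]

end

end Pool.Agent.H64
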